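import Pool.Agent.H843R3.Str.Lam

set_option autoImplicit false

/-!
# Expansion of the string length far away
-/

open MeasureTheory Set Real Metric Filter
open scoped Pointwise ENNReal Topology

namespace Pool.Agent.H843R3.Str

theorem int_tri {a r T : ℝ} (ha : 0 ≤ a) (hr : 0 < r) (hT : a / r ≤ T) :
    ∫ s in (0:ℝ)..T, max (a - r * s) 0 = a ^ 2 / (2 * r) := by
  have hc : Continuous fun s : ℝ => max (a - r * s) 0 := by fun_prop
  rw [← intervalIntegral.integral_add_adjacent_intervals (b := a / r)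
    (hc.intervalIntegrable _ _) (hc.intervalIntegrable _ _)]
  have h0 : 0 ≤ a / r := by positivity
  have e1 : ∫ s in (0:ℝ)..(a / r), max (a - r * s) 0 = ∫ s in (0:ℝ)..(a / r), (a - r * s) := by
    apply intervalIntegral.integral_congr
    intro s hs
    rw [uIcc_of_le h0] at hs
    apply max_eq_left
    have := hs.2
    rw [le_div_iff₀ hr] at this
    linarith
  have e2 : ∫ s in (a / r)..T, max (a - r * s) 0 = 0 := by
    rw [intervalIntegral.integral_congr (g := fun _ => (0:ℝ))]
    · simp
    intro s hs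
    rw [uIcc_of_le hT] at hs
    apply max_eq_right
    have := hs.1
    rw [div_le_iff₀ hr] at this
    linarith
  rw [e1, e2, add_zero, intervalIntegral.integral_sub (by simp)
    (Continuous.intervalIntegrable (by fun_prop) _ _), intervalIntegral.integral_const,
    intervalIntegral.integral_const_mul, integral_id]
  simp only [smul_eq_mul]
  field_simp
  ring

theorem side {f : ℝ → ℝ} (hf : Continuous f) {a M r : ℝ} (ha : 0 ≤ a) (haM : a ≤ M) (hM : 1 ≤ M)
    (hfa : ∀ s, 0 ≤ s → |f s - a| ≤ M * s) (hr : 2 * π * M ≤ r) :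
    |(∫ s in (0:ℝ)..(π / 2), max (f s - r * sin s) 0) - a ^ 2 / (2 * r)| ≤
      (π ^ 2 * M ^ 3 + π ^ 4 * M ^ 4) / r ^ 2 := by
  have hpi := pi_gt_three
  have hr0 : 0 < r := by nlinarith
  have hr1 : 1 ≤ r := by nlinarith
  set T := π * M / r with hT
  have hT0 : 0 < T := by positivity
  have hT1 : T ≤ 1 / 2 := by
    rw [hT, div_le_iff₀ hr0]
    linarith
  have hc : Continuous fun s : ℝ => max (f s - r * sin s) 0 := by fun_prop
  have hc2 : Continuous fun s : ℝ => max (a - r * s) 0 := by fun_prop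
  rw [← intervalIntegral.integral_add_adjacent_intervals (b := T)
    (hc.intervalIntegrable _ _) (hc.intervalIntegrable _ _)]
  have e2 : ∫ s in T..(π / 2), max (f s - r * sin s) 0 = 0 := by
    rw [intervalIntegral.integral_congr (g := fun _ => (0:ℝ))]
    · simp
    intro s hs
    rw [uIcc_of_le (by linarith)] at hs
    apply max_eq_right
    have h1 : 0 ≤ s := by linarith [hs.1]
    have h2 := mul_le_sin h1 hs.2
    have h3 := (abs_le.mp (hfa s h1)).2
    have h4 : M ≤ r / π * s := by
      have : r / π * T = M := by rw [hT]; field_simp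
      calc M = r / π * T := this.symm
        _ ≤ r / π * s := by
          have := hs.1
          gcongr
    have h5 : M * s ≤ r / π * s := by
      have : M ≤ r / π := by
        rw [le_div_iff₀ pi_pos]
        nlinarith
      gcongr
    have h6 : r * (2 / π * s) ≤ r * sin s := by gcongr
    have h7 : r * (2 / π * s) = r / π * s + r / π * s := by ring
    linarith
  rw [e2, add_zero, ← int_tri ha hr0 (T := T) (by
    rw [hT]
    gcongr
    nlinarith), ← intervalIntegral.integral_sub (hc.intervalIntegrable _ _)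
    (hc2.intervalIntegrable _ _)]
  have h1 := intervalIntegral.norm_integral_le_of_norm_le_const
    (a := 0) (b := T) (C := M * T + r * T ^ 3)
    (f := fun s => max (f s - r * sin s) 0 - max (a - r * s) 0) (by
      intro s hs
      rw [uIoc_of_le hT0.le] at hs
      have hs0 := hs.1
      have hs1 := hs.2
      rw [Real.norm_eq_abs]
      refine (abs_max_sub_max_le_abs _ _ _).trans ?_
      have b1 := abs_le.mp (hfa s hs0.le)
      have b2 := Real.sin_gt_sub_cube hs0
      have b3 := Real.sin_lt hs0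
      have b4 : s ^ 3 ≤ T ^ 3 := by gcongr
      have b5 : M * s ≤ M * T := by gcongr
      have b6 : 0 < s ^ 3 := by positivity
      have b7 : r * (s - sin s) ≤ r * T ^ 3 := by
        apply mul_le_mul_of_nonneg_left _ hr0.le
        linarith
      have b8 : 0 ≤ r * (s - sin s) := mul_nonneg hr0.le (by linarith)
      rw [abs_le]
      constructor
      · have : f s - r * sin s - (a - r * s) = (f s - a) + r * (s - sin s) := by ring
        rw [this]
        have : 0 ≤ r * T ^ 3 := by positivity
        linarith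
      · have : f s - r * sin s - (a - r * s) = (f s - a) + r * (s - sin s) := by ring
        rw [this]
        linarith)
  rw [Real.norm_eq_abs, sub_zero, abs_of_pos hT0] at h1
  refine h1.trans ?_
  have e3 : (M * T + r * T ^ 3) * T = π ^ 2 * M ^ 3 / r ^ 2 + π ^ 4 * M ^ 4 / r ^ 3 := by
    rw [hT]
    field_simp
  rw [e3, add_div]
  have e4 : π ^ 4 * M ^ 4 / r ^ 3 ≤ π ^ 4 * M ^ 4 / r ^ 2 := by
    apply div_le_div_of_nonneg_left (by positivity) (by positivity)
    exact pow_le_pow_right₀ hr1 (by norm_num)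
  linarith

variable {h : ℝ → ℝ}

theorem Lam_ray (hc : Continuous h) (hp : ∀ φ, h (φ + 2 * π) = h φ) (hpos : ∀ φ, 0 ≤ h φ)
    {r : ℝ} (hr : 0 ≤ r) (θ : ℝ) :
    Lam h (r • nn θ) = 2 * r + H0 h θ +
      (∫ s in (0:ℝ)..(π / 2), max (h (θ + π / 2 - s) - r * sin s) 0) +
      ∫ s in (0:ℝ)..(π / 2), max (h (θ - π / 2 + s) - r * sin s) 0 := by
  rw [Lam_shift hp _ (θ - π / 2)]
  have hcm := cont_max hc (r • nn θ)
  have s1 : ∫ φ in (θ - π / 2)..(θ - π / 2 + 2 * π), max (h φ) (dt (r • nn θ) φ) =
      (∫ φ in (θ - π / 2)..(θ + π / 2), max (h φ) (dt (r • nn θ) φ)) +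
      ∫ φ in (θ + π / 2)..(θ - π / 2 + 2 * π), max (h φ) (dt (r • nn θ) φ) := by
    rw [intervalIntegral.integral_add_adjacent_intervals] <;>
      exact hcm.intervalIntegrable _ _
  have s2 : ∫ φ in (θ + π / 2)..(θ - π / 2 + 2 * π), max (h φ) (dt (r • nn θ) φ) = H0 h θ := by
    unfold H0
    rw [show θ - π / 2 + 2 * π = θ + 3 * π / 2 by ring]
    apply intervalIntegral.integral_congr
    intro x hx
    rw [uIcc_of_le (by linarith [pi_pos])] at hx
    apply max_eq_left
    rw [dt_smul_nn]
    have : cos (x - θ) ≤ 0 := by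
      apply cos_nonpos_of_pi_div_two_le_of_le <;> linarith [hx.1, hx.2, pi_pos]
    have := hpos x
    nlinarith
  have hcd : Continuous fun φ => r * cos (φ - θ) := by fun_prop
  have hce : Continuous fun φ => max (h φ - r * cos (φ - θ)) 0 := by fun_prop
  have s3 : ∫ φ in (θ - π / 2)..(θ + π / 2), max (h φ) (dt (r • nn θ) φ) =
      2 * r + ∫ φ in (θ - π / 2)..(θ + π / 2), max (h φ - r * cos (φ - θ)) 0 := by
    have e1 : 2 * r = ∫ φ in (θ - π / 2)..(θ + π / 2), r * cos (φ - θ) := by
      have := int_dt (r • nn θ) θ (π / 2)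
      simp only [dt_smul_nn] at this
      rw [this]
      simp
    rw [e1, ← intervalIntegral.integral_add (hcd.intervalIntegrable _ _)
      (hce.intervalIntegrable _ _)]
    apply intervalIntegral.integral_congr
    intro x _
    simp only [dt_smul_nn]
    rw [← max_add_add_left]
    ring_nf
  have s4 : ∫ φ in (θ - π / 2)..(θ + π / 2), max (h φ - r * cos (φ - θ)) 0 =
      (∫ φ in (θ - π / 2)..θ, max (h φ - r * cos (φ - θ)) 0) +
      ∫ φ in θ..(θ + π / 2), max (h φ - r * cos (φ - θ)) 0 := by
    rw [intervalIntegral.integral_add_adjacent_intervals] <;>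
      exact hce.intervalIntegrable _ _
  have s5 : ∫ φ in (θ - π / 2)..θ, max (h φ - r * cos (φ - θ)) 0 =
      ∫ s in (0:ℝ)..(π / 2), max (h (θ - π / 2 + s) - r * sin s) 0 := by
    have := intervalIntegral.integral_comp_add_left (a := 0) (b := π / 2)
      (fun φ => max (h φ - r * cos (φ - θ)) 0) (θ - π / 2)
    rw [add_zero, sub_add_cancel] at this
    rw [← this]
    apply intervalIntegral.integral_congr
    intro s _
    simp only
    rw [show θ - π / 2 + s - θ = s - π / 2 by ring, cos_sub_pi_div_two]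
  have s6 : ∫ φ in θ..(θ + π / 2), max (h φ - r * cos (φ - θ)) 0 =
      ∫ s in (0:ℝ)..(π / 2), max (h (θ + π / 2 - s) - r * sin s) 0 := by
    have := intervalIntegral.integral_comp_sub_left (a := 0) (b := π / 2)
      (fun φ => max (h φ - r * cos (φ - θ)) 0) (θ + π / 2)
    rw [sub_zero, add_sub_cancel_right] at this
    rw [← this]
    apply intervalIntegral.integral_congr
    intro s _
    simp only
    rw [show θ + π / 2 - s - θ = π / 2 - s by ring, cos_pi_div_two_sub]
  rw [s1, s2, s3, s4, s5, s6]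
  ring

/-- **Expansion of the string length.** -/
theorem Lam_asym (hp : ∀ φ, h (φ + 2 * π) = h φ) (hpos : ∀ φ, 0 ≤ h φ) {M : ℝ} (hM : 1 ≤ M)
    (hlip : ∀ φ ψ, |h φ - h ψ| ≤ M * |φ - ψ|) (hle : ∀ φ, h φ ≤ M) {r : ℝ}
    (hr : 2 * π * M ≤ r) (θ : ℝ) :
    |Lam h (r • nn θ) - (2 * r + H0 h θ + (h (θ + π / 2) ^ 2 + h (θ - π / 2) ^ 2) / (2 * r))| ≤
      2 * (π ^ 2 * M ^ 3 + π ^ 4 * M ^ 4) / r ^ 2 := by
  have hc := continuous_of_lip hlip
  have hr0 : 0 ≤ r := by nlinarith [pi_pos]
  rw [Lam_ray hc hp hpos hr0]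
  have a1 := side (f := fun s => h (θ + π / 2 - s)) (by fun_prop) (hpos (θ + π / 2))
    (hle _) hM (by
      intro s hs
      refine (hlip _ _).trans ?_
      rw [show θ + π / 2 - s - (θ + π / 2) = -s by ring, abs_neg, abs_of_nonneg hs]) hr
  have a2 := side (f := fun s => h (θ - π / 2 + s)) (by fun_prop) (hpos (θ - π / 2))
    (hle _) hM (by
      intro s hs
      refine (hlip _ _).trans ?_
      rw [show θ - π / 2 + s - (θ - π / 2) = s by ring, abs_of_nonneg hs]) hr
  rw [abs_le] at a1 a2 ⊢
  rw [mul_div_assoc, add_div (h (θ + π / 2) ^ 2)]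
  constructor <;> linarith [a1.1, a1.2, a2.1, a2.2]

end Pool.Agent.H843R3.Str
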