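import Mathlib

set_option autoImplicit false

/-!
# Support functions of planar convex bodies, as functions of the angle
-/

open MeasureTheory Set Real

namespace Pool.Agent.H843R3.Str

/-- The Euclidean plane. -/
abbrev E2 := EuclideanSpace ℝ (Fin 2)

/-- the inner product of `x` with the unit vector of angle `φ` -/
noncomputable def dt (x : E2) (φ : ℝ) : ℝ := x 0 * cos φ + x 1 * sin φ

/-- the support function of `K` as a function of the angle -/
noncomputable def supp (K : Set E2) (φ : ℝ) : ℝ := sSup ((fun x => dt x φ) '' K)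

theorem dt_add (x y : E2) (φ : ℝ) : dt (x + y) φ = dt x φ + dt y φ := by
  simp only [dt, PiLp.add_apply]; ring

theorem dt_sub (x y : E2) (φ : ℝ) : dt (x - y) φ = dt x φ - dt y φ := by
  simp only [dt, PiLp.sub_apply]; ring

theorem dt_smul (c : ℝ) (x : E2) (φ : ℝ) : dt (c • x) φ = c * dt x φ := by
  simp only [dt, PiLp.smul_apply, smul_eq_mul]; ring

theorem dt_neg (x : E2) (φ : ℝ) : dt (-x) φ = -dt x φ := by
  simp only [dt, PiLp.neg_apply]; ring

theorem dt_zero (φ : ℝ) : dt 0 φ = 0 := by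
  simp [dt]

theorem norm_sq (x : E2) : ‖x‖ ^ 2 = x 0 ^ 2 + x 1 ^ 2 := by
  rw [EuclideanSpace.norm_sq_eq, Fin.sum_univ_two]
  simp only [Real.norm_eq_abs, sq_abs]

theorem continuous_dt_left (φ : ℝ) : Continuous fun x : E2 => dt x φ := by
  unfold dt; fun_prop

theorem continuous_dt (x : E2) : Continuous (dt x) := by
  unfold dt; fun_prop

theorem dt_add_pi (x : E2) (φ : ℝ) : dt x (φ + π) = -dt x φ := by
  simp only [dt, cos_add_pi, sin_add_pi]; ring

theorem dt_sub_pi (x : E2) (φ : ℝ) : dt x (φ - π) = -dt x φ := by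
  simp only [dt, cos_sub_pi, sin_sub_pi]; ring

theorem dt_add_two_pi (x : E2) (φ : ℝ) : dt x (φ + 2 * π) = dt x φ := by
  simp only [dt, cos_add_two_pi, sin_add_two_pi]

/-- the three term relation -/
theorem dt_rel (x : E2) (a ψ b : ℝ) :
    sin (b - a) * dt x ψ = sin (b - ψ) * dt x a + sin (ψ - a) * dt x b := by
  simp only [dt, sin_sub]
  ring

theorem abs_dt_le (x : E2) (φ : ℝ) : |dt x φ| ≤ ‖x‖ := by
  apply abs_le_of_sq_le_sq _ (norm_nonneg x)
  rw [norm_sq]
  unfold dt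
  have h := sin_sq_add_cos_sq φ
  nlinarith [sq_nonneg (x 0 * sin φ - x 1 * cos φ)]

theorem abs_dt_sub_le (x : E2) (φ ψ : ℝ) : |dt x φ - dt x ψ| ≤ ‖x‖ * |φ - ψ| := by
  apply abs_le_of_sq_le_sq _ (by positivity)
  rw [mul_pow, norm_sq, sq_abs]
  have h1 : (cos φ - cos ψ) ^ 2 + (sin φ - sin ψ) ^ 2 ≤ (φ - ψ) ^ 2 := by
    have h2 := Real.one_sub_sq_div_two_le_cos (x := φ - ψ)
    rw [cos_sub] at h2
    have h3 := sin_sq_add_cos_sq φ
    have h4 := sin_sq_add_cos_sq ψ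
    nlinarith
  have h5 : (dt x φ - dt x ψ) ^ 2 ≤ (x 0 ^ 2 + x 1 ^ 2) *
      ((cos φ - cos ψ) ^ 2 + (sin φ - sin ψ) ^ 2) := by
    unfold dt
    nlinarith [sq_nonneg (x 0 * (sin φ - sin ψ) - x 1 * (cos φ - cos ψ))]
  calc (dt x φ - dt x ψ) ^ 2 ≤ (x 0 ^ 2 + x 1 ^ 2) *
      ((cos φ - cos ψ) ^ 2 + (sin φ - sin ψ) ^ 2) := h5
    _ ≤ (x 0 ^ 2 + x 1 ^ 2) * (φ - ψ) ^ 2 := by gcongr

section

variable {K : Set E2}

theorem bdd (hK : IsCompact K) (φ : ℝ) : BddAbove ((fun x => dt x φ) '' K) :=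
  (hK.image (continuous_dt_left φ)).bddAbove

theorem le_supp (hK : IsCompact K) {x : E2} (hx : x ∈ K) (φ : ℝ) : dt x φ ≤ supp K φ :=
  le_csSup (bdd hK φ) ⟨x, hx, rfl⟩

theorem exists_supp (hK : IsCompact K) (hne : K.Nonempty) (φ : ℝ) :
    ∃ x ∈ K, dt x φ = supp K φ := by
  obtain ⟨x, hx, hx2⟩ := hK.exists_sSup_image_eq hne (continuous_dt_left φ).continuousOn
  exact ⟨x, hx, hx2.symm⟩

theorem supp_le (hne : K.Nonempty) {φ c : ℝ} (h : ∀ x ∈ K, dt x φ ≤ c) : supp K φ ≤ c := by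
  apply csSup_le (hne.image _)
  rintro _ ⟨x, hx, rfl⟩
  exact h x hx

theorem supp_add_two_pi (K : Set E2) (φ : ℝ) : supp K (φ + 2 * π) = supp K φ := by
  unfold supp
  simp only [dt_add_two_pi]

theorem supp_lip (hK : IsCompact K) (hne : K.Nonempty) {R : ℝ} (hR : ∀ x ∈ K, ‖x‖ ≤ R)
    (φ ψ : ℝ) : |supp K φ - supp K ψ| ≤ R * |φ - ψ| := by
  have key : ∀ φ ψ : ℝ, supp K φ - supp K ψ ≤ R * |φ - ψ| := by
    intro φ ψ
    obtain ⟨x, hx, hx2⟩ := exists_supp hK hne φ
    have h1 := le_supp hK hx ψ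
    have h2 := abs_dt_sub_le x φ ψ
    have h3 := le_abs_self (dt x φ - dt x ψ)
    have h4 : ‖x‖ * |φ - ψ| ≤ R * |φ - ψ| := by
      have := hR x hx
      gcongr
    linarith
  rw [abs_le]
  constructor
  · have := key ψ φ
    rw [abs_sub_comm] at this
    linarith
  · exact key φ ψ

theorem supp_opp (hK : IsCompact K) (hne : K.Nonempty) (φ : ℝ) :
    0 ≤ supp K φ + supp K (φ + π) := by
  obtain ⟨x, hx⟩ := hne
  have h1 := le_supp hK hx φ
  have h2 := le_supp hK hx (φ + π)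
  rw [dt_add_pi] at h2
  linarith

theorem supp_rel (hK : IsCompact K) (hne : K.Nonempty) {a ψ b : ℝ} (h1 : a ≤ ψ) (h2 : ψ ≤ b)
    (h3 : b - a ≤ π) :
    sin (b - a) * supp K ψ ≤ sin (b - ψ) * supp K a + sin (ψ - a) * supp K b := by
  obtain ⟨x, hx, hx2⟩ := exists_supp hK hne ψ
  rw [← hx2, dt_rel]
  have s1 : 0 ≤ sin (b - ψ) := sin_nonneg_of_nonneg_of_le_pi (by linarith) (by linarith)
  have s2 : 0 ≤ sin (ψ - a) := sin_nonneg_of_nonneg_of_le_pi (by linarith) (by linarith)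
  have h4 := mul_le_mul_of_nonneg_left (le_supp hK hx a) s1
  have h5 := mul_le_mul_of_nonneg_left (le_supp hK hx b) s2
  linarith

theorem mem_of_dt_le (hK : IsCompact K) (hc : Convex ℝ K) (hne : K.Nonempty) {x : E2}
    (h : ∀ φ, dt x φ ≤ supp K φ) : x ∈ K := by
  by_contra hx
  obtain ⟨f, u, hf1, hf2⟩ := geometric_hahn_banach_closed_point hc hK.isClosed hx
  set ν := (InnerProductSpace.toDual ℝ E2).symm f with hν
  have hfν : ∀ w, f w = inner ℝ ν w := fun w => by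
    rw [hν, InnerProductSpace.toDual_symm_apply]
  have hin : ∀ w : E2, inner ℝ ν w = ν 0 * w 0 + ν 1 * w 1 := by
    intro w
    rw [PiLp.inner_apply, Fin.sum_univ_two]
    simp [mul_comm]
  -- polar angle of ν
  set z : ℂ := ⟨ν 0, ν 1⟩ with hz
  have hz1 : ν 0 = ‖z‖ * cos z.arg := (Complex.norm_mul_cos_arg z).symm
  have hz2 : ν 1 = ‖z‖ * sin z.arg := (Complex.norm_mul_sin_arg z).symm
  have hfd : ∀ w : E2, f w = ‖z‖ * dt w z.arg := by
    intro w
    rw [hfν, hin, hz1, hz2]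
    unfold dt
    ring
  obtain ⟨y, hy, hy2⟩ := exists_supp hK hne z.arg
  have h1 := hf1 y hy
  rw [hfd, hy2] at h1
  rw [hfd] at hf2
  have h2 := mul_le_mul_of_nonneg_left (h z.arg) (norm_nonneg z)
  linarith

theorem supp_mono {K' : Set E2} (hne : K.Nonempty) (hK' : IsCompact K') (h : K ⊆ K')
    (φ : ℝ) : supp K φ ≤ supp K' φ :=
  supp_le hne fun _ hx => le_supp hK' (h hx) φ

theorem supp_hull_insert (hK : IsCompact K) (hc : Convex ℝ K) (hne : K.Nonempty) (y : E2)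
    (φ : ℝ) : supp (convexHull ℝ (insert y K)) φ = max (supp K φ) (dt y φ) := by
  have hne' : (convexHull ℝ (insert y K)).Nonempty :=
    ⟨y, subset_convexHull ℝ _ (mem_insert _ _)⟩
  have hcvx : Convex ℝ {x : E2 | dt x φ ≤ max (supp K φ) (dt y φ)} := by
    intro a ha b hb s t hs ht hst
    simp only [mem_ofPred_eq] at ha hb ⊢
    rw [dt_add, dt_smul, dt_smul]
    have h1 := mul_le_mul_of_nonneg_left ha hs
    have h2 := mul_le_mul_of_nonneg_left hb ht
    have h3 : s * max (supp K φ) (dt y φ) + t * max (supp K φ) (dt y φ)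
        = max (supp K φ) (dt y φ) := by rw [← add_mul, hst, one_mul]
    linarith
  have hsub : convexHull ℝ (insert y K) ⊆ {x : E2 | dt x φ ≤ max (supp K φ) (dt y φ)} := by
    apply convexHull_min _ hcvx
    intro x hx
    rcases hx with hx | hx
    · rw [hx]
      exact le_max_right (supp K φ) (dt y φ)
    · exact (le_supp hK hx φ).trans (le_max_left (supp K φ) (dt y φ))
  have hbdd : BddAbove ((fun x => dt x φ) '' (convexHull ℝ (insert y K))) := by
    refine ⟨max (supp K φ) (dt y φ), ?_⟩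
    rintro _ ⟨x, hx, rfl⟩
    exact hsub hx
  apply le_antisymm
  · exact supp_le hne' fun x hx => hsub hx
  · apply max_le
    · exact supp_le hne fun x hx => le_csSup hbdd
        ⟨x, subset_convexHull ℝ _ (mem_insert_of_mem _ hx), rfl⟩
    · exact le_csSup hbdd ⟨y, subset_convexHull ℝ _ (mem_insert _ _), rfl⟩

theorem compact_hull_insert (hK : IsCompact K) (hc : Convex ℝ K) (hne : K.Nonempty) (y : E2) :
    IsCompact (convexHull ℝ (insert y K)) := by
  have h1 : convexHull ℝ (insert y K) =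
      (fun p : ℝ × E2 => y + p.1 • (p.2 - y)) '' (Icc (0:ℝ) 1 ×ˢ K) := by
    rw [convexHull_insert hne, hc.convexHull_eq]
    ext x
    simp only [mem_convexJoin, mem_singleton_iff, exists_eq_left, mem_image, mem_prod, Prod.exists]
    constructor
    · rintro ⟨b, hb, hx⟩
      rw [segment_eq_image'] at hx
      obtain ⟨t, ht, rfl⟩ := hx
      exact ⟨t, b, ⟨ht, hb⟩, rfl⟩
    · rintro ⟨t, b, ⟨ht, hb⟩, rfl⟩
      refine ⟨b, hb, ?_⟩
      rw [segment_eq_image']
      exact ⟨t, ht, rfl⟩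
  rw [h1]
  exact (isCompact_Icc.prod hK).image (by fun_prop)

end

end Pool.Agent.H843R3.Str
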