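import Pool.Agent.H843R3.Str.Poly

set_option autoImplicit false

/-!
# Cauchy's formula for the perimeter of a planar convex body
-/

open MeasureTheory Set Real Metric Filter
open scoped Pointwise ENNReal Topology

namespace Pool.Agent.H843R3.Str

theorem continuous_of_lip {h : ℝ → ℝ} {R : ℝ} (hR : ∀ φ ψ, |h φ - h ψ| ≤ R * |φ - ψ|) :
    Continuous h := by
  have hR0 : 0 ≤ R := by
    have := hR 1 0
    have h1 := abs_nonneg (h 1 - h 0)
    norm_num at this
    linarith
  have : LipschitzWith ⟨R, hR0⟩ h := by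
    apply LipschitzWith.of_dist_le_mul
    intro x y
    rw [Real.dist_eq, Real.dist_eq]
    exact hR x y
  exact this.continuous

theorem riemann {h : ℝ → ℝ} {R : ℝ} (hR : ∀ φ ψ, |h φ - h ψ| ≤ R * |φ - ψ|) {N : ℕ}
    (hN : 5 ≤ N) :
    |del N * ∑ i ∈ Finset.range N, h (i * del N) - ∫ φ in (0:ℝ)..(2 * π), h φ| ≤
      2 * π * R * del N := by
  have hc := continuous_of_lip hR
  have hd := del_pos hN
  have h1 : ∫ φ in (0:ℝ)..(2 * π), h φ =
      ∑ i ∈ Finset.range N, ∫ φ in ((i : ℕ) : ℝ) * del N..((i + 1 : ℕ) : ℝ) * del N, h φ := by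
    rw [intervalIntegral.sum_integral_adjacent_intervals
      (a := fun i : ℕ => (i : ℝ) * del N) (n := N) (fun k _ => hc.intervalIntegrable _ _)]
    rw [Nat.cast_zero, zero_mul, mul_del hN]
  rw [h1, Finset.mul_sum, ← Finset.sum_sub_distrib]
  calc |∑ i ∈ Finset.range N, (del N * h (i * del N) -
        ∫ φ in ((i : ℕ) : ℝ) * del N..((i + 1 : ℕ) : ℝ) * del N, h φ)|
      ≤ ∑ i ∈ Finset.range N, |del N * h (i * del N) -
        ∫ φ in ((i : ℕ) : ℝ) * del N..((i + 1 : ℕ) : ℝ) * del N, h φ| :=
        Finset.abs_sum_le_sum_abs _ _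
    _ ≤ ∑ i ∈ Finset.range N, R * del N * del N := by
        apply Finset.sum_le_sum
        intro i _
        have e1 : ((i + 1 : ℕ) : ℝ) * del N - (i : ℝ) * del N = del N := by push_cast; ring
        have e2 : del N * h (i * del N) =
            ∫ φ in ((i : ℕ) : ℝ) * del N..((i + 1 : ℕ) : ℝ) * del N, h (i * del N) := by
          rw [intervalIntegral.integral_const, e1, smul_eq_mul]
        rw [e2, ← intervalIntegral.integral_sub (by simp) (hc.intervalIntegrable _ _)]
        have e3 := intervalIntegral.norm_integral_le_of_norm_le_const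
          (a := ((i : ℕ) : ℝ) * del N) (b := ((i + 1 : ℕ) : ℝ) * del N) (C := R * del N)
          (f := fun φ => h (i * del N) - h φ) (by
            intro x hx
            have hle : ((i : ℕ) : ℝ) * del N ≤ ((i + 1 : ℕ) : ℝ) * del N := by linarith
            rw [uIoc_of_le hle] at hx
            rw [Real.norm_eq_abs]
            refine (hR _ _).trans ?_
            have hR0 : 0 ≤ R := by
              have := hR 1 0
              have h1 := abs_nonneg (h 1 - h 0)
              norm_num at this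
              linarith
            apply mul_le_mul_of_nonneg_left _ hR0
            rw [abs_sub_comm, abs_of_nonneg (by linarith [hx.1])]
            linarith [hx.2])
        rw [e1, abs_of_pos hd, Real.norm_eq_abs] at e3
        exact e3
    _ = 2 * π * R * del N := by
        rw [Finset.sum_const, Finset.card_range, nsmul_eq_mul, ← mul_del hN]
        ring

theorem tendsto_del : Tendsto del atTop (𝓝 0) := by
  unfold del
  exact tendsto_const_div_atTop_nhds_zero_nat (2 * π)

theorem tendsto_ratio :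
    Tendsto (fun N : ℕ => (2 - 2 * cos (del N)) / (sin (del N) * del N)) atTop (𝓝 1) := by
  have h1 : Tendsto (fun N : ℕ => 1 / (1 - del N ^ 2 / 4)) atTop (𝓝 1) := by
    have : Tendsto (fun N : ℕ => 1 / (1 - del N ^ 2 / 4)) atTop (𝓝 (1 / (1 - 0 ^ 2 / 4))) := by
      apply Tendsto.div tendsto_const_nhds _ (by norm_num)
      exact tendsto_const_nhds.sub ((tendsto_del.pow 2).div_const 4)
    simpa using this
  apply tendsto_of_tendsto_of_tendsto_of_le_of_le' tendsto_const_nhds h1
  · filter_upwards [eventually_ge_atTop 5] with N hN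
    have hd := del_pos hN
    have hs := sin_del_pos hN
    rw [le_div_iff₀ (by positivity), one_mul]
    have h2 : del N / 2 < tan (del N / 2) :=
      lt_tan (by linarith) (by linarith [del_lt hN, pi_pos])
    have hcos : 0 < cos (del N / 2) :=
      cos_pos_of_mem_Ioo ⟨by linarith [pi_pos], by linarith [del_lt hN, pi_pos]⟩
    have hsin : 0 < sin (del N / 2) :=
      sin_pos_of_pos_of_lt_pi (by linarith) (by linarith [del_lt hN, pi_pos])
    rw [tan_eq_sin_div_cos, lt_div_iff₀ hcos] at h2
    have e1 : sin (del N) = 2 * sin (del N / 2) * cos (del N / 2) := by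
      rw [← sin_two_mul]; congr 1; ring
    have e2 : cos (del N) = 1 - 2 * sin (del N / 2) ^ 2 := by
      have h3 : cos (del N) = cos (2 * (del N / 2)) := by congr 1; ring
      rw [h3, cos_two_mul]
      have := sin_sq_add_cos_sq (del N / 2)
      linarith
    rw [e1, e2]
    nlinarith
  · filter_upwards [eventually_ge_atTop 5,
      (tendsto_del.eventually (gt_mem_nhds (show (0:ℝ) < 1 by norm_num)))] with N hN hN1
    have hd := del_pos hN
    have hs := sin_del_pos hN
    have h2 := Real.sin_gt_sub_cube hd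
    have h3 := Real.one_sub_sq_div_two_le_cos (x := del N)
    have h4 : 0 < 1 - del N ^ 2 / 4 := by nlinarith
    rw [div_le_div_iff₀ (by positivity) h4]
    have h5 : (2 - 2 * cos (del N)) ≤ del N ^ 2 := by linarith
    have h6 : del N * (1 - del N ^ 2 / 4) ≤ sin (del N) := by
      have : 0 < del N ^ 3 := by positivity
      nlinarith
    calc (2 - 2 * cos (del N)) * (1 - del N ^ 2 / 4) ≤ del N ^ 2 * (1 - del N ^ 2 / 4) := by gcongr
      _ = del N * (1 - del N ^ 2 / 4) * del N := by ring
      _ ≤ sin (del N) * del N := by gcongr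
      _ = 1 * (sin (del N) * del N) := by ring

theorem near_mesh {N : ℕ} (hN : 5 ≤ N) (ψ : ℝ) : ∃ j : ℤ, |ψ - j * del N| ≤ del N := by
  have hd := del_pos hN
  refine ⟨⌊ψ / del N⌋, ?_⟩
  have h1 := Int.floor_le (ψ / del N)
  have h2 := Int.lt_floor_add_one (ψ / del N)
  rw [le_div_iff₀ hd] at h1
  rw [div_lt_iff₀ hd] at h2
  rw [abs_of_nonneg (by linarith)]
  linarith

theorem exists_arg (x : E2) : ∃ θ, dt x θ = ‖x‖ := by
  set z : ℂ := ⟨x 0, x 1⟩ with hz
  refine ⟨z.arg, ?_⟩
  have hz1 : x 0 = ‖z‖ * cos z.arg := (Complex.norm_mul_cos_arg z).symm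
  have hz2 : x 1 = ‖z‖ * sin z.arg := (Complex.norm_mul_sin_arg z).symm
  have hn : ‖x‖ = ‖z‖ := by
    have e1 : ‖x‖ ^ 2 = ‖z‖ ^ 2 := by
      rw [norm_sq, ← Complex.normSq_eq_norm_sq, Complex.normSq_apply]
      ring
    exact (pow_left_inj₀ (norm_nonneg _) (norm_nonneg _) two_ne_zero).mp e1
  unfold dt
  rw [hn]
  have := sin_sq_add_cos_sq z.arg
  calc x 0 * cos z.arg + x 1 * sin z.arg
      = ‖z‖ * cos z.arg * cos z.arg + ‖z‖ * sin z.arg * sin z.arg := by rw [← hz1, ← hz2]
    _ = ‖z‖ := by linear_combination ‖z‖ * this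

theorem KN_subset {K : Set E2} (hK : IsCompact K) (hc : Convex ℝ K) (hne : K.Nonempty) {R ρ : ℝ}
    (hR0 : 0 < R) (hR : ∀ x ∈ K, ‖x‖ ≤ R) (hρ : 0 < ρ) (hρ2 : ∀ φ, ρ ≤ supp K φ)
    {N : ℕ} (hN : 5 ≤ N) (hN2 : del N ≤ 1 / 2) :
    KN (supp K) N ⊆ (1 + 3 * R * del N / ρ) • K := by
  intro x hx
  have hd := del_pos hN
  have hh := suppFn_supp hK hne
  have hsle : ∀ φ, supp K φ ≤ R := fun φ => supp_le hne fun y hy =>
    (le_abs_self _).trans ((abs_dt_le y φ).trans (hR y hy))
  have hnx : ‖x‖ ≤ 2 * R := by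
    obtain ⟨θ, hθ⟩ := exists_arg x
    obtain ⟨j, hj⟩ := near_mesh hN θ
    have h1 := KN_int hh hN hx j
    have h2 := abs_dt_sub_le x θ (j * del N)
    have h3 := le_abs_self (dt x θ - dt x (j * del N))
    have h4 := hsle (j * del N)
    have h5 : ‖x‖ * |θ - j * del N| ≤ ‖x‖ * del N := by gcongr
    have h6 : ‖x‖ * del N ≤ ‖x‖ * (1 / 2) := by gcongr
    linarith
  set c : ℝ := 1 + 3 * R * del N / ρ with hcdef
  have hc0 : 0 < c := by positivity
  rw [mem_smul_set_iff_inv_smul_mem₀ hc0.ne']
  apply mem_of_dt_le hK hc hne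
  intro ψ
  rw [dt_smul, inv_mul_le_iff₀ hc0]
  obtain ⟨j, hj⟩ := near_mesh hN ψ
  have h1 := KN_int hh hN hx j
  have h2 := abs_dt_sub_le x ψ (j * del N)
  have h3 := le_abs_self (dt x ψ - dt x (j * del N))
  have h4 := supp_lip hK hne hR (j * del N) ψ
  have h5 := le_abs_self (supp K (j * del N) - supp K ψ)
  rw [abs_sub_comm ((j : ℝ) * del N) ψ] at h4
  have h6 : ‖x‖ * |ψ - j * del N| ≤ 2 * R * del N := by gcongr
  have h7 : R * |ψ - j * del N| ≤ R * del N := by gcongr
  have h8 : 3 * R * del N ≤ 3 * R * del N / ρ * supp K ψ := by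
    rw [div_mul_eq_mul_div, le_div_iff₀ hρ]
    have := hρ2 ψ
    have h9 : 0 ≤ 3 * R * del N := by positivity
    nlinarith
  have h10 : c * supp K ψ = supp K ψ + 3 * R * del N / ρ * supp K ψ := by rw [hcdef]; ring
  rw [h10]
  linarith

theorem subset_KN {K : Set E2} (hK : IsCompact K) (N : ℕ) : K ⊆ KN (supp K) N :=
  fun _ hx _ _ => le_supp hK hx _

/-- Cauchy's formula, for bodies with the origin inside. -/
theorem cauchy_zero {K : Set E2} (hK : IsCompact K) (hc : Convex ℝ K) (h0 : 0 ∈ interior K) :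
    (μH[1] : Measure E2) (frontier K) ≠ ⊤ ∧
      ((μH[1] : Measure E2) (frontier K)).toReal = ∫ φ in (0:ℝ)..(2 * π), supp K φ := by
  have hne : K.Nonempty := ⟨0, interior_subset h0⟩
  have hi : (interior K).Nonempty := ⟨0, h0⟩
  have hh := suppFn_supp hK hne
  obtain ⟨R', hR'⟩ := hK.isBounded.exists_norm_le
  set R := max R' 1 with hRdef
  have hR0 : 0 < R := lt_of_lt_of_le one_pos (le_max_right _ _)
  have hR : ∀ x ∈ K, ‖x‖ ≤ R := fun x hx => (hR' x hx).trans (le_max_left _ _)
  obtain ⟨ρ, hρ, hball⟩ := Metric.mem_nhds_iff.mp (mem_interior_iff_mem_nhds.mp h0)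
  have hρ2 : ∀ φ, ρ / 2 ≤ supp K φ := by
    intro φ
    have hm : ((ρ / 2) • (!₂[cos φ, sin φ] : E2)) ∈ K := by
      apply hball
      rw [mem_ball_zero_iff]
      have : ‖(ρ / 2) • (!₂[cos φ, sin φ] : E2)‖ = ρ / 2 := by
        rw [norm_smul, Real.norm_of_nonneg (by positivity)]
        have e1 : ‖(!₂[cos φ, sin φ] : E2)‖ ^ 2 = 1 := by
          rw [norm_sq]
          simp
        have e2 : ‖(!₂[cos φ, sin φ] : E2)‖ = 1 := by
          have := (pow_left_inj₀ (norm_nonneg (!₂[cos φ, sin φ] : E2)) (zero_le_one) two_ne_zero).mp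
            (e1.trans (one_pow 2).symm)
          exact this
        rw [e2, mul_one]
      rw [this]
      linarith
    have h1 := le_supp hK hm φ
    have h2 : dt ((ρ / 2) • (!₂[cos φ, sin φ] : E2)) φ = ρ / 2 := by
      rw [dt_smul]
      have : dt (!₂[cos φ, sin φ] : E2) φ = 1 := by
        simp only [dt]
        simp
        have := sin_sq_add_cos_sq φ
        nlinarith
      rw [this, mul_one]
    linarith
  have hpos : ∀ φ, 0 < supp K φ := fun φ => by linarith [hρ2 φ]
  have hlip := supp_lip hK hne hR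
  set I := ∫ φ in (0:ℝ)..(2 * π), supp K φ with hI
  -- the perimeters of the polygons
  set P : ℕ → ℝ := fun N => ∑ i ∈ Finset.range N, DD (supp K) N i / sin (del N) with hP
  have hPeq : ∀ N : ℕ, 5 ≤ N → P N = (2 - 2 * cos (del N)) / (sin (del N) * del N) *
      (del N * ∑ i ∈ Finset.range N, supp K (i * del N)) := by
    intro N hN
    have h1 := sum_DD (h := supp K) (supp_add_two_pi K) hN
    simp only [hP]
    rw [← Finset.sum_div, h1]
    have := (sin_del_pos hN).ne'
    have := (del_pos hN).ne'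
    generalize ∑ i ∈ Finset.range N, supp K (i * del N) = S
    field_simp
  have hPlim : Tendsto P atTop (𝓝 I) := by
    have h1 : Tendsto (fun N : ℕ => del N * ∑ i ∈ Finset.range N, supp K (i * del N)) atTop (𝓝 I) := by
      rw [tendsto_iff_norm_sub_tendsto_zero]
      have h2 : Tendsto (fun N : ℕ => 2 * π * R * del N) atTop (𝓝 0) := by
        simpa using tendsto_del.const_mul (2 * π * R)
      apply squeeze_zero' (Eventually.of_forall fun _ => norm_nonneg _) _ h2
      filter_upwards [eventually_ge_atTop 5] with N hN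
      exact riemann hlip hN
    have h3 := tendsto_ratio.mul h1
    rw [one_mul] at h3
    apply h3.congr'
    filter_upwards [eventually_ge_atTop 5] with N hN
    exact (hPeq N hN).symm
  have hmeas : ∀ N : ℕ, 5 ≤ N → (μH[1] : Measure E2) (frontier (KN (supp K) N)) =
      ENNReal.ofReal (P N) := fun N hN => measure_KN hh hpos hN
  have hKNcpt : ∀ N : ℕ, 5 ≤ N → del N ≤ 1 / 2 → IsCompact (KN (supp K) N) := by
    intro N hN hN2
    have h1 := KN_subset hK hc hne hR0 hR (half_pos hρ) hρ2 hN hN2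
    exact (hK.smul (1 + 3 * R * del N / (ρ / 2))).of_isClosed_subset (isClosed_KN _ _) h1
  have hev : ∀ᶠ N : ℕ in atTop, 5 ≤ N ∧ del N ≤ 1 / 2 := by
    filter_upwards [eventually_ge_atTop 5,
      (tendsto_del.eventually (gt_mem_nhds (show (0:ℝ) < 1 / 2 by norm_num)))] with N h1 h2
    exact ⟨h1, h2.le⟩
  have hle1 : ∀ N : ℕ, 5 ≤ N → del N ≤ 1 / 2 →
      (μH[1] : Measure E2) (frontier K) ≤ ENNReal.ofReal (P N) := by
    intro N hN hN2
    rw [← hmeas N hN]
    exact perim_mono hc hK hi (hKNcpt N hN hN2) (subset_KN hK N)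
  have hfin : (μH[1] : Measure E2) (frontier K) ≠ ⊤ := by
    obtain ⟨N, hN, hN2⟩ := hev.exists
    exact ne_top_of_le_ne_top ENNReal.ofReal_ne_top (hle1 N hN hN2)
  have hPnn : ∀ N : ℕ, 5 ≤ N → 0 ≤ P N := fun N hN =>
    Finset.sum_nonneg fun i _ => div_nonneg (DD_nonneg hh hN i) (sin_del_pos hN).le
  have hle1' : ∀ N : ℕ, 5 ≤ N → del N ≤ 1 / 2 →
      ((μH[1] : Measure E2) (frontier K)).toReal ≤ P N := by
    intro N hN hN2
    exact ENNReal.toReal_le_of_le_ofReal (hPnn N hN) (hle1 N hN hN2)
  have hle2 : ∀ N : ℕ, 5 ≤ N → del N ≤ 1 / 2 →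
      P N ≤ (1 + 3 * R * del N / (ρ / 2)) * ((μH[1] : Measure E2) (frontier K)).toReal := by
    intro N hN hN2
    have hcpos : 0 < 1 + 3 * R * del N / (ρ / 2) := by
      have := del_pos hN
      positivity
    have hKNi : (interior (KN (supp K) N)).Nonempty := hi.mono (interior_mono (subset_KN hK N))
    have h1 := perim_mono (convex_KN _ _) (hKNcpt N hN hN2) hKNi
      (hK.smul (1 + 3 * R * del N / (ρ / 2)))
      (KN_subset hK hc hne hR0 hR (half_pos hρ) hρ2 hN hN2)
    rw [perim_smul hcpos, hmeas N hN] at h1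
    have h2 := ENNReal.toReal_mono (ENNReal.mul_ne_top ENNReal.ofReal_ne_top hfin) h1
    rw [ENNReal.toReal_ofReal (hPnn N hN), ENNReal.toReal_mul,
      ENNReal.toReal_ofReal hcpos.le] at h2
    exact h2
  refine ⟨hfin, le_antisymm ?_ ?_⟩
  · apply ge_of_tendsto hPlim
    filter_upwards [hev] with N hN
    exact hle1' N hN.1 hN.2
  · have h1 : Tendsto (fun N : ℕ => (1 + 3 * R * del N / (ρ / 2)) *
        ((μH[1] : Measure E2) (frontier K)).toReal) atTop
        (𝓝 ((1 + 3 * R * 0 / (ρ / 2)) * ((μH[1] : Measure E2) (frontier K)).toReal)) :=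
      (tendsto_const_nhds.add ((tendsto_del.const_mul (3 * R)).div_const (ρ / 2))).mul_const _
    have h2 := le_of_tendsto_of_tendsto hPlim h1 (by
      filter_upwards [hev] with N hN
      exact hle2 N hN.1 hN.2)
    simpa using h2

theorem integral_dt (x : E2) : ∫ φ in (0:ℝ)..(2 * π), dt x φ = 0 := by
  unfold dt
  rw [intervalIntegral.integral_add, intervalIntegral.integral_const_mul,
    intervalIntegral.integral_const_mul, integral_cos, integral_sin]
  · simp
  · exact Continuous.intervalIntegrable (by fun_prop) _ _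
  · exact Continuous.intervalIntegrable (by fun_prop) _ _

/-- **Cauchy's formula.** -/
theorem cauchy {K : Set E2} (hK : IsCompact K) (hc : Convex ℝ K) (hi : (interior K).Nonempty) :
    ((μH[1] : Measure E2) (frontier K)).toReal = ∫ φ in (0:ℝ)..(2 * π), supp K φ := by
  obtain ⟨x0, hx0⟩ := hi
  have hne : K.Nonempty := ⟨x0, interior_subset hx0⟩
  set e : E2 ≃ᵢ E2 := IsometryEquiv.addRight (-x0) with he
  set K' : Set E2 := e '' K with hK'
  have hK'c : IsCompact K' := hK.image e.continuous
  have hne' : K'.Nonempty := hne.image e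
  have hconv : Convex ℝ K' := by
    have := hc.translate_preimage_left x0
    have h2 : K' = (fun x => x + x0) ⁻¹' K := by
      ext y
      simp only [hK', mem_image, mem_preimage]
      constructor
      · rintro ⟨x, hx, rfl⟩
        simpa [he] using hx
      · intro hy
        exact ⟨y + x0, hy, by simp [he]⟩
    rw [h2]
    exact hc.translate_preimage_left x0
  have hint : 0 ∈ interior K' := by
    have h1 : interior K' = e '' interior K := (e.toHomeomorph.image_interior K).symm
    rw [h1]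
    exact ⟨x0, hx0, by simp [he]⟩
  have hfr : frontier K' = e '' frontier K := (e.toHomeomorph.image_frontier K).symm
  have h1 := (cauchy_zero hK'c hconv hint).2
  rw [hfr, IsometryEquiv.hausdorffMeasure_image] at h1
  rw [h1]
  have h2 : ∀ φ, supp K' φ = supp K φ - dt x0 φ := by
    intro φ
    apply le_antisymm
    · apply supp_le hne'
      rintro _ ⟨x, hx, rfl⟩
      have : dt (e x) φ = dt x φ - dt x0 φ := by
        rw [show e x = x - x0 by simp [he, sub_eq_add_neg], dt_sub]
      rw [this]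
      linarith [le_supp hK hx φ]
    · obtain ⟨x, hx, hx2⟩ := exists_supp hK hne φ
      have h3 := le_supp hK'c (mem_image_of_mem e hx) φ
      have : dt (e x) φ = dt x φ - dt x0 φ := by
        rw [show e x = x - x0 by simp [he, sub_eq_add_neg], dt_sub]
      rw [this, hx2] at h3
      exact h3
  obtain ⟨R, hR⟩ := hK.isBounded.exists_norm_le
  have hcs := continuous_of_lip (supp_lip hK hne hR)
  simp only [h2]
  rw [intervalIntegral.integral_sub (hcs.intervalIntegrable _ _)
    ((continuous_dt x0).intervalIntegrable _ _), integral_dt, sub_zero]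

end Pool.Agent.H843R3.Str
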