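import Pool.Agent.H843R3.Str.Trans

set_option autoImplicit false

/-!
# The functional equation for the squared half width, and its solution
-/

open MeasureTheory Set Real Metric Filter
open scoped Pointwise ENNReal Topology

namespace Pool.Agent.H843R3.Str

set_option maxHeartbeats 2000000

/-- A function with continuous lower tangents is differentiable. -/
theorem hasDerivAt_of_lower {F D : ℝ → ℝ} {C : ℝ} (hD : Continuous D)
    (H : ∀ φ δ, |δ| ≤ 1 → D φ * δ - C * δ ^ 2 ≤ F (φ + δ) - F φ) (φ : ℝ) :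
    HasDerivAt F (D φ) φ := by
  rw [hasDerivAt_iff_isLittleO_nhds_zero]
  rw [Asymptotics.isLittleO_iff]
  intro ε hε
  have h1 : ∀ᶠ δ in 𝓝 (0:ℝ), |D (φ + δ) - D φ| < ε / 2 := by
    have : Tendsto (fun δ => D (φ + δ)) (𝓝 0) (𝓝 (D φ)) := by
      have hc2 : Continuous fun δ : ℝ => D (φ + δ) := by fun_prop
      have := hc2.tendsto 0
      simpa using this
    have h2 := Metric.tendsto_nhds.mp this (ε / 2) (by positivity)
    simpa [Real.dist_eq] using h2
  have h3 : ∀ᶠ δ in 𝓝 (0:ℝ), |δ| < min 1 (ε / (2 * (|C| + 1))) := by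
    have hpos : 0 < min 1 (ε / (2 * (|C| + 1))) := by positivity
    have := Metric.ball_mem_nhds (0:ℝ) hpos
    filter_upwards [this] with δ hδ
    simpa [Real.dist_eq] using hδ
  filter_upwards [h1, h3] with δ a1 a3
  have b1 : |δ| ≤ 1 := (a3.trans_le (min_le_left _ _)).le
  have b2 : |δ| ≤ ε / (2 * (|C| + 1)) := (a3.trans_le (min_le_right _ _)).le
  have c1 := H φ δ b1
  have c2 := H (φ + δ) (-δ) (by rwa [abs_neg])
  rw [add_neg_cancel_right] at c2
  have c3 : |C| * |δ| ≤ ε / 2 := by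
    rw [le_div_iff₀ (by positivity)] at b2
    have := abs_nonneg δ
    nlinarith
  have c4 : C * δ ^ 2 ≤ ε / 2 * |δ| := by
    calc C * δ ^ 2 ≤ |C| * δ ^ 2 := by gcongr; exact le_abs_self C
      _ = (|C| * |δ|) * |δ| := by rw [← sq_abs]; ring
      _ ≤ ε / 2 * |δ| := by gcongr
  have c5 : |(D (φ + δ) - D φ) * δ| ≤ ε / 2 * |δ| := by
    rw [abs_mul]
    gcongr
  have c6 := abs_le.mp c5
  rw [Real.norm_eq_abs, Real.norm_eq_abs, smul_eq_mul, abs_le]
  constructor
  · nlinarith [abs_nonneg δ]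
  · nlinarith [c6.2]

theorem int_shift {h : ℝ → ℝ} (hp : ∀ φ, h (φ + 2 * π) = h φ) (a : ℝ) :
    ∫ φ in (0:ℝ)..(2 * π), h φ = ∫ φ in a..(a + 2 * π), h φ := by
  have hper : Function.Periodic h (2 * π) := hp
  have h1 := hper.intervalIntegral_add_eq 0 a
  rw [zero_add] at h1
  exact h1

variable {h : ℝ → ℝ} {M ρ : ℝ}

theorem tangent (H : Hyp h) (hh : SuppFn h) (hρ : 0 < ρ) (hρ2 : ∀ φ, ρ ≤ h φ)
    (hM : 1 ≤ M) (hlip : ∀ φ ψ, |h φ - h ψ| ≤ M * |φ - ψ|) (hle : ∀ φ, h φ ≤ M)
    {α : ℝ} (h0 : 0 < α) (h1 : α < π / 2) (h2 : cos α * (π * M) < 2 * ρ) (φ δ : ℝ)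
    (hδ : |δ| ≤ 1) :
    (ev h (φ + α) ^ 2 - ev h (φ - α) ^ 2) / sin (2 * α) * δ -
      ((M / cos α) ^ 2 + 2 * M ^ 2 / sin (2 * α)) * δ ^ 2 ≤ ev h (φ + δ) ^ 2 - ev h φ ^ 2 := by
  have hp := hh.periodic
  have hpos : ∀ φ, 0 ≤ h φ := fun φ => hρ.le.trans (hρ2 φ)
  have hc := continuous_of_lip hlip
  obtain ⟨v, hv⟩ := od_trig H hp hpos hM hlip hle
  have hcos : 0 < cos α := cos_pos_of_mem_Ioo ⟨by linarith, h1⟩
  have hsin : 0 < sin α := sin_pos_of_pos_of_lt_pi h0 (by linarith)
  set P := vtx h φ α with hP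
  have Pp : dt P (φ + α) = h (φ + α) := dt_vtx_plus h h0 h1
  have Pm : dt P (φ - α) = h (φ - α) := dt_vtx_minus h h0 h1
  have Pφ : dt P φ = (h (φ + α) + h (φ - α)) / (2 * cos α) := by
    rw [hP, dt_vtx, sub_self, cos_zero, sin_zero]
    ring
  have Pbig : π * M < 2 * dt P φ := by
    rw [Pφ]
    have := hρ2 (φ + α)
    have := hρ2 (φ - α)
    rw [mul_div_assoc', lt_div_iff₀ (by positivity)]
    nlinarith
  set ℓ := Lam h P with hℓ
  have hlt : ∫ φ in (0:ℝ)..(2 * π), h φ < ℓ := by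
    have a := Lam_ge_two hc hp P φ
    have b : ∫ φ in (0:ℝ)..(2 * π), h φ = (∫ ψ in (φ - π / 2)..(φ + π / 2), h ψ) + H0 h φ := by
      rw [int_shift hp (φ - π / 2)]
      unfold H0
      rw [intervalIntegral.integral_add_adjacent_intervals (hc.intervalIntegrable _ _)
        (hc.intervalIntegrable _ _)]
      congr 1
      ring
    have c : ∫ ψ in (φ - π / 2)..(φ + π / 2), h ψ ≤ π * M := by
      calc ∫ ψ in (φ - π / 2)..(φ + π / 2), h ψ ≤ ∫ _ψ in (φ - π / 2)..(φ + π / 2), M := by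
            apply intervalIntegral.integral_mono_on (by linarith)
              (hc.intervalIntegrable _ _) (by simp)
            intro x _
            exact hle x
        _ = π * M := by
            rw [intervalIntegral.integral_const, smul_eq_mul]
            ring
    rw [b]
    linarith
  obtain ⟨g, gp, ghle, g1, g2, hod, hev⟩ := hyp_use H hp hpos hM hlip hle hlt
  have hPeq := Lam_eq hc hp P φ α h0.le (by linarith)
    (fun ψ a b => hh.inner h0 h1 Pp Pm a b) (fun ψ a b => hh.outer h0 h1 Pp Pm a b)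
  have hgφ : g φ = dt P φ := by
    apply le_antisymm
    · obtain ⟨z, z1, z2⟩ := g2 φ
      have a := Lam_ge hc hp z φ α h0.le (by linarith)
      rw [← z2]
      have : 2 * sin α * dt z φ ≤ 2 * sin α * dt P φ := by linarith
      exact le_of_mul_le_mul_left this (by positivity)
    · exact g1 P φ le_rfl
  have hgψ : ∀ ψ, dt P ψ ≤ g ψ := fun ψ => g1 P ψ le_rfl
  -- pass to the even parts
  have hgev : ∀ ψ, g ψ = ev g ψ + dt v ψ := by
    intro ψ
    rw [← ev_add_od g ψ, hod, hv]
  have hhev : ∀ ψ, h ψ = ev h ψ + dt v ψ := by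
    intro ψ
    rw [← hv, ev_add_od]
  set Q := P - v with hQ
  have q1 : ∀ ψ, |dt Q ψ| ≤ ev g ψ := by
    intro ψ
    have a := hgψ ψ
    have b := hgψ (ψ + π)
    rw [hgev] at a b
    rw [dt_add_pi, dt_add_pi, ev_add_pi gp] at b
    rw [hQ, dt_sub, abs_le]
    constructor <;> linarith
  have q2 : dt Q φ = ev g φ := by
    rw [hQ, dt_sub, ← hgφ, hgev]
    ring
  have q3 : dt Q (φ + δ) ^ 2 - dt Q φ ^ 2 ≤ ev h (φ + δ) ^ 2 - ev h φ ^ 2 := by
    have a := hev (φ + δ) φ
    have b : dt Q (φ + δ) ^ 2 ≤ ev g (φ + δ) ^ 2 := by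
      rw [← sq_abs]
      exact pow_le_pow_left₀ (abs_nonneg _) (q1 _) 2
    rw [q2]
    linarith
  refine le_trans ?_ q3
  -- trigonometry
  set A := dt Q φ with hA
  set B := dt Q (φ + π / 2) with hB
  have exp : ∀ t, dt Q (φ + t) = A * cos t + B * sin t := by
    intro t
    simp only [hA, hB, dt]
    rw [cos_add, sin_add, cos_add, sin_add, cos_pi_div_two, sin_pi_div_two]
    ring
  have ep : A * cos α + B * sin α = ev h (φ + α) := by
    rw [← exp, hQ, dt_sub, Pp, hhev]
    ring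
  have em : A * cos α - B * sin α = ev h (φ - α) := by
    have a := exp (-α)
    rw [cos_neg, sin_neg, ← sub_eq_add_neg] at a
    have b : dt Q (φ - α) = ev h (φ - α) := by
      rw [hQ, dt_sub, Pm, hhev]
      ring
    rw [← b, a]
    ring
  have hevM : ∀ ψ, 0 ≤ ev h ψ ∧ ev h ψ ≤ M := by
    intro ψ
    unfold ev
    constructor <;> linarith [hpos ψ, hpos (ψ + π), hle ψ, hle (ψ + π)]
  have hs2 : sin (2 * α) = 2 * sin α * cos α := sin_two_mul α
  have hs2pos : 0 < sin (2 * α) := by rw [hs2]; positivity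
  have hD : (ev h (φ + α) ^ 2 - ev h (φ - α) ^ 2) / sin (2 * α) = 2 * A * B := by
    rw [← ep, ← em, hs2]
    field_simp
    ring
  have hAM : A ^ 2 ≤ (M / cos α) ^ 2 := by
    have a : A * cos α ≤ M := by
      have := (hevM (φ + α)).2
      have := (hevM (φ - α)).2
      linarith
    have b : 0 ≤ A * cos α := by
      have := (hevM (φ + α)).1
      have := (hevM (φ - α)).1
      linarith
    have c : 0 ≤ A := by
      by_contra hn
      push Not at hn
      nlinarith
    apply pow_le_pow_left₀ c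
    rw [le_div_iff₀ hcos]
    exact a
  have hDM : |2 * A * B| ≤ 2 * M ^ 2 / sin (2 * α) := by
    rw [← hD, abs_div, abs_of_pos hs2pos]
    apply div_le_div_of_nonneg_right _ hs2pos.le
    have a := pow_le_pow_left₀ (hevM (φ + α)).1 (hevM (φ + α)).2 2
    have b := pow_le_pow_left₀ (hevM (φ - α)).1 (hevM (φ - α)).2 2
    have c := sq_nonneg (ev h (φ + α))
    have d := sq_nonneg (ev h (φ - α))
    rw [abs_le]
    constructor <;> linarith
  rw [hD, exp]
  have e1 : (A * cos δ + B * sin δ) ^ 2 - A ^ 2 =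
      (B ^ 2 - A ^ 2) * sin δ ^ 2 + 2 * A * B * (sin δ * cos δ) := by
    have := sin_sq_add_cos_sq δ
    have : cos δ ^ 2 = 1 - sin δ ^ 2 := by linarith
    ring_nf
    rw [this]
    ring
  rw [e1]
  have e2 : sin δ ^ 2 ≤ δ ^ 2 := by
    rw [← sq_abs, ← sq_abs δ]
    exact pow_le_pow_left₀ (abs_nonneg _) (abs_sin_le_abs) 2
  have e3 : |sin δ * cos δ - δ| ≤ δ ^ 2 := by
    have a : |sin (2 * δ) - 2 * δ| ≤ |2 * δ| ^ 3 / 6 := by
      rw [abs_sub_comm]
      rcases lt_trichotomy δ 0 with h | h | h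
      · have b := Real.sin_gt_sub_cube (x := -(2 * δ)) (by linarith)
        have c := Real.sin_lt (x := -(2 * δ)) (by linarith)
        rw [sin_neg] at b c
        rw [abs_of_neg (by linarith : 2 * δ < 0), abs_le]
        have : 0 < (-(2 * δ)) ^ 3 := by
          have : 0 < -(2 * δ) := by linarith
          positivity
        constructor <;> linarith
      · simp [h]
      · have b := Real.sin_gt_sub_cube (x := 2 * δ) (by linarith)
        have c := Real.sin_lt (x := 2 * δ) (by linarith)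
        rw [abs_of_pos (by linarith : 0 < 2 * δ), abs_le]
        have : 0 < (2 * δ) ^ 3 := by positivity
        constructor <;> linarith
    have b : |2 * δ| ^ 3 / 6 ≤ 2 * δ ^ 2 := by
      rw [abs_mul, abs_of_pos (by norm_num : (0:ℝ) < 2)]
      have : |δ| ^ 3 ≤ δ ^ 2 := by
        rw [← sq_abs]
        have := abs_nonneg δ
        calc |δ| ^ 3 = |δ| ^ 2 * |δ| := by ring
          _ ≤ |δ| ^ 2 * 1 := by gcongr
          _ = |δ| ^ 2 := mul_one _
      nlinarith [sq_nonneg δ]
    rw [sin_two_mul] at a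
    have c : sin δ * cos δ - δ = (2 * sin δ * cos δ - 2 * δ) / 2 := by ring
    rw [c, abs_div, abs_of_pos (by norm_num : (0:ℝ) < 2)]
    linarith
  have e4 : -(2 * M ^ 2 / sin (2 * α) * δ ^ 2) ≤ 2 * A * B * (sin δ * cos δ - δ) := by
    have a : |2 * A * B * (sin δ * cos δ - δ)| ≤ 2 * M ^ 2 / sin (2 * α) * δ ^ 2 := by
      rw [abs_mul]
      gcongr
    linarith [(abs_le.mp a).1]
  have e5 : -((M / cos α) ^ 2 * δ ^ 2) ≤ (B ^ 2 - A ^ 2) * sin δ ^ 2 := by
    have a : A ^ 2 * sin δ ^ 2 ≤ (M / cos α) ^ 2 * δ ^ 2 := by gcongr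
    have b : 0 ≤ B ^ 2 * sin δ ^ 2 := by positivity
    nlinarith
  nlinarith

/-- The functional equation: `F' sin 2α = F(φ + α) - F(φ - α)`. -/
theorem functional (H : Hyp h) (hh : SuppFn h) (hρ : 0 < ρ) (hρ2 : ∀ φ, ρ ≤ h φ)
    (hM : 1 ≤ M) (hlip : ∀ φ ψ, |h φ - h ψ| ≤ M * |φ - ψ|) (hle : ∀ φ, h φ ≤ M)
    {α : ℝ} (h0 : 0 < α) (h1 : α < π / 2) (h2 : cos α * (π * M) < 2 * ρ) (φ : ℝ) :
    HasDerivAt (fun φ => ev h φ ^ 2) ((ev h (φ + α) ^ 2 - ev h (φ - α) ^ 2) / sin (2 * α)) φ := by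
  have hc := continuous_of_lip hlip
  have hce : Continuous (ev h) := by
    unfold ev
    fun_prop
  exact hasDerivAt_of_lower
    (D := fun φ => (ev h (φ + α) ^ 2 - ev h (φ - α) ^ 2) / sin (2 * α))
    (by fun_prop) (fun φ δ hδ => tangent H hh hρ hρ2 hM hlip hle h0 h1 h2 φ δ hδ) φ

/-- Solution of the functional equation. -/
theorem solve {F : ℝ → ℝ} (hper : ∀ φ, F (φ + π) = F φ) {β0 : ℝ} (hβ : 0 < β0) (hβ1 : β0 < π / 2)
    (H : ∀ β, 0 < β → β < β0 → ∀ φ,
      HasDerivAt F ((F (φ + (π / 2 - β)) - F (φ - (π / 2 - β))) / sin (2 * (π / 2 - β))) φ) :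
    ∃ k A B : ℝ, ∀ φ, F φ = k + A * cos (2 * φ) + B * sin (2 * φ) := by
  have hsin : ∀ β, 0 < β → β < β0 → 0 < sin (2 * β) := fun β a b =>
    sin_pos_of_pos_of_lt_pi (by linarith) (by linarith)
  have hdiff : Differentiable ℝ F := fun φ =>
    (H (β0 / 2) (by linarith) (by linarith) φ).differentiableAt
  set f1 := deriv F with hf1
  have d1 : ∀ φ, HasDerivAt F (f1 φ) φ := fun φ => (hdiff φ).hasDerivAt
  have per1 : ∀ φ, f1 (φ + π) = f1 φ := by
    intro φ
    have a := (d1 (φ + π)).comp φ ((hasDerivAt_id φ).add_const π)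
    have b : (F ∘ fun x : ℝ => id x + π) = F := by
      funext x
      exact hper x
    rw [b, mul_one] at a
    exact a.unique (d1 φ)
  -- first form
  have e1 : ∀ β, 0 < β → β < β0 → ∀ x, F (x + β) - F (x - β) = -f1 (x - π / 2) * sin (2 * β) := by
    intro β a b x
    have c := (H β a b (x - π / 2)).unique (d1 (x - π / 2))
    rw [show 2 * (π / 2 - β) = π - 2 * β by ring, sin_pi_sub] at c
    rw [div_eq_iff (hsin β a b).ne'] at c
    rw [show x - π / 2 + (π / 2 - β) = x - β by ring] at c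
    have d : F (x - π / 2 - (π / 2 - β)) = F (x + β) := by
      rw [← hper]
      congr 1
      ring
    rw [d] at c
    linarith
  -- identify the coefficient
  have e2 : ∀ x, -f1 (x - π / 2) = f1 x := by
    intro x
    have a : HasDerivAt (fun β => F (x + β) - F (x - β)) (f1 x + f1 x) 0 := by
      have p : HasDerivAt (fun β : ℝ => F (x + β)) (f1 x) 0 := by
        have := HasDerivAt.comp (0:ℝ) (h₂ := F) (h := fun β : ℝ => x + β) (h₂' := f1 x) (h' := 1)
          (by simpa using d1 x) ((hasDerivAt_id (0:ℝ)).const_add x)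
        rw [mul_one] at this
        exact this
      have q : HasDerivAt (fun β : ℝ => F (x - β)) (-f1 x) 0 := by
        have := HasDerivAt.comp (0:ℝ) (h₂ := F) (h := fun β : ℝ => x - β) (h₂' := f1 x) (h' := -1)
          (by simpa using d1 x) ((hasDerivAt_id (0:ℝ)).const_sub x)
        rw [mul_neg_one] at this
        exact this
      have r := p.sub q
      rw [sub_neg_eq_add] at r
      exact r
    have b : HasDerivAt (fun β => -f1 (x - π / 2) * sin (2 * β)) (-f1 (x - π / 2) * 2) 0 := by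
      have s := ((hasDerivAt_id (0:ℝ)).const_mul 2).sin.const_mul (-f1 (x - π / 2))
      simpa using s
    have a' := a.hasDerivWithinAt (s := Ioi 0)
    have b' := b.hasDerivWithinAt (s := Ioi 0)
    have c' : HasDerivWithinAt (fun β => F (x + β) - F (x - β)) (-f1 (x - π / 2) * 2) (Ioi 0) 0 := by
      apply b'.congr_of_eventuallyEq
      · have : ∀ᶠ β in 𝓝[>] (0:ℝ), β < β0 := nhdsWithin_le_nhds (gt_mem_nhds hβ)
        filter_upwards [this, self_mem_nhdsWithin] with β s t
        exact e1 β t s x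
      · simp
    have u := (uniqueDiffWithinAt_Ioi (0:ℝ)).eq_deriv _ a' c'
    linarith
  have e3 : ∀ β, 0 < β → β < β0 → ∀ x, F (x + β) - F (x - β) = f1 x * sin (2 * β) := by
    intro β a b x
    rw [e1 β a b x, e2]
  -- regularity
  set β1 := β0 / 2 with hβ1'
  have hb1 : 0 < β1 := by rw [hβ1']; linarith
  have hb2 : β1 < β0 := by rw [hβ1']; linarith
  have hs1 := (hsin β1 hb1 hb2).ne'
  have shift : ∀ (f f' : ℝ → ℝ), (∀ x, HasDerivAt f (f' x) x) → ∀ (c x : ℝ),
      HasDerivAt (fun x => f (x + c)) (f' (x + c)) x := by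
    intro f f' hf c x
    have a := (hf (x + c)).comp x ((hasDerivAt_id x).add_const c)
    rw [mul_one] at a
    exact a
  have shift' : ∀ (f f' : ℝ → ℝ), (∀ x, HasDerivAt f (f' x) x) → ∀ (c x : ℝ),
      HasDerivAt (fun x => f (x - c)) (f' (x - c)) x := by
    intro f f' hf c x
    have a := (hf (x - c)).comp x ((hasDerivAt_id x).sub_const c)
    rw [mul_one] at a
    exact a
  set f2 : ℝ → ℝ := fun x => (f1 (x + β1) - f1 (x - β1)) / sin (2 * β1) with hf2
  have d2 : ∀ x, HasDerivAt f1 (f2 x) x := by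
    intro x
    have a : f1 = fun x => (F (x + β1) - F (x - β1)) / sin (2 * β1) := by
      funext y
      rw [e3 β1 hb1 hb2 y]
      field_simp
    have b := ((shift F f1 d1 β1 x).sub (shift' F f1 d1 β1 x)).div_const (sin (2 * β1))
    rw [a]
    rw [hf2, a]
    rw [a] at b
    exact b
  set f3 : ℝ → ℝ := fun x => (f2 (x + β1) - f2 (x - β1)) / sin (2 * β1) with hf3
  have d3 : ∀ x, HasDerivAt f2 (f3 x) x := by
    intro x
    exact ((shift f1 f2 d2 β1 x).sub (shift' f1 f2 d2 β1 x)).div_const (sin (2 * β1))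
  -- two derivatives in x
  have g1 : ∀ β, 0 < β → β < β0 → ∀ x, f1 (x + β) - f1 (x - β) = f2 x * sin (2 * β) := by
    intro β a b x
    have c := (shift F f1 d1 β x).sub (shift' F f1 d1 β x)
    have d := (d2 x).mul_const (sin (2 * β))
    have e : (fun x => F (x + β)) - (fun x => F (x - β)) = fun x => f1 x * sin (2 * β) := by
      funext y
      exact e3 β a b y
    rw [e] at c
    exact c.unique d
  have g2 : ∀ β, 0 < β → β < β0 → ∀ x, f2 (x + β) - f2 (x - β) = f3 x * sin (2 * β) := by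
    intro β a b x
    have c := (shift f1 f2 d2 β x).sub (shift' f1 f2 d2 β x)
    have d := (d3 x).mul_const (sin (2 * β))
    have e : (fun x => f1 (x + β)) - (fun x => f1 (x - β)) = fun x => f2 x * sin (2 * β) := by
      funext y
      exact g1 β a b y
    rw [e] at c
    exact c.unique d
  -- two derivatives in β
  have sh2 : ∀ (f f' : ℝ → ℝ), (∀ x, HasDerivAt f (f' x) x) → ∀ (x β : ℝ),
      HasDerivAt (fun β => f (x + β)) (f' (x + β)) β := by
    intro f f' hf x β
    have a := (hf (x + β)).comp β ((hasDerivAt_id β).const_add x)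
    rw [mul_one] at a
    exact a
  have sh3 : ∀ (f f' : ℝ → ℝ), (∀ x, HasDerivAt f (f' x) x) → ∀ (x β : ℝ),
      HasDerivAt (fun β => f (x - β)) (-f' (x - β)) β := by
    intro f f' hf x β
    have a := (hf (x - β)).comp β ((hasDerivAt_id β).const_sub x)
    rw [mul_neg_one] at a
    exact a
  have k1 : ∀ β, 0 < β → β < β0 → ∀ x, f1 (x + β) + f1 (x - β) = f1 x * (2 * cos (2 * β)) := by
    intro β a b x
    have c := (sh2 F f1 d1 x β).sub (sh3 F f1 d1 x β)
    have d : HasDerivAt (fun β => f1 x * sin (2 * β)) (f1 x * (2 * cos (2 * β))) β := by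
      have s := ((hasDerivAt_id β).const_mul 2).sin.const_mul (f1 x)
      simp only [id, mul_one] at s
      rw [mul_comm (cos (2 * β)) 2] at s
      exact s
    have e : HasDerivAt (fun β => f1 x * sin (2 * β)) (f1 (x + β) - -f1 (x - β)) β := by
      apply c.congr_of_eventuallyEq
      have : Ioo (0:ℝ) β0 ∈ 𝓝 β := Ioo_mem_nhds a b
      filter_upwards [this] with t ht
      exact (e3 t ht.1 ht.2 x).symm
    have := e.unique d
    linarith
  have k2 : ∀ β, 0 < β → β < β0 → ∀ x, f2 (x + β) - f2 (x - β) = f1 x * (-4 * sin (2 * β)) := by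
    intro β a b x
    have c := (sh2 f1 f2 d2 x β).add (sh3 f1 f2 d2 x β)
    have d : HasDerivAt (fun β => f1 x * (2 * cos (2 * β))) (f1 x * (-4 * sin (2 * β))) β := by
      have s := (((hasDerivAt_id β).const_mul 2).cos.const_mul 2).const_mul (f1 x)
      simp only [id, mul_one] at s
      have t : 2 * (-sin (2 * β) * 2) = -4 * sin (2 * β) := by ring
      rw [t] at s
      exact s
    have e : HasDerivAt (fun β => f1 x * (2 * cos (2 * β))) (f2 (x + β) + -f2 (x - β)) β := by
      apply c.congr_of_eventuallyEq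
      have : Ioo (0:ℝ) β0 ∈ 𝓝 β := Ioo_mem_nhds a b
      filter_upwards [this] with t ht
      exact (k1 t ht.1 ht.2 x).symm
    have := e.unique d
    linarith
  have ode : ∀ x, f3 x = -4 * f1 x := by
    intro x
    have a := g2 β1 hb1 hb2 x
    have b := k2 β1 hb1 hb2 x
    rw [a] at b
    have : sin (2 * β1) * f3 x = sin (2 * β1) * (-4 * f1 x) := by linarith
    exact mul_left_cancel₀ hs1 this
  -- first integral
  set k := (f2 0 + 4 * F 0) / 4 with hk
  have i1 : ∀ x, f2 x + 4 * F x = 4 * k := by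
    intro x
    have a : ∀ y, HasDerivAt (fun y => f2 y + 4 * F y) 0 y := by
      intro y
      have b := (d3 y).add ((d1 y).const_mul 4)
      have c : f3 y + 4 * f1 y = 0 := by rw [ode]; ring
      rw [c] at b
      exact b
    have b := is_const_of_deriv_eq_zero (fun y => (a y).differentiableAt) (fun y => (a y).deriv) x 0
    rw [b, hk]
    ring
  set A := F 0 - k with hA
  set B := f1 0 / 2 with hB
  refine ⟨k, A, B, fun φ => ?_⟩
  set w : ℝ → ℝ := fun x => F x - (k + A * cos (2 * x) + B * sin (2 * x)) with hw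
  set w1 : ℝ → ℝ := fun x => f1 x - (A * (-2 * sin (2 * x)) + B * (2 * cos (2 * x))) with hw1
  have dcos : ∀ x : ℝ, HasDerivAt (fun x => cos (2 * x)) (-2 * sin (2 * x)) x := by
    intro x
    have s := ((hasDerivAt_id x).const_mul 2).cos
    simp only [id, mul_one] at s
    have t : -sin (2 * x) * 2 = -2 * sin (2 * x) := by ring
    rw [t] at s
    exact s
  have dsin : ∀ x : ℝ, HasDerivAt (fun x => sin (2 * x)) (2 * cos (2 * x)) x := by
    intro x
    have s := ((hasDerivAt_id x).const_mul 2).sin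
    simp only [id, mul_one] at s
    rw [mul_comm (cos (2 * x)) 2] at s
    exact s
  have j1 : ∀ x, HasDerivAt w (w1 x) x := by
    intro x
    exact (d1 x).sub ((((dcos x).const_mul A).const_add k).add ((dsin x).const_mul B))
  have j2 : ∀ x, HasDerivAt w1 (-4 * w x) x := by
    intro x
    have a := (d2 x).sub ((((dsin x).const_mul (-2)).const_mul A).add
      (((dcos x).const_mul 2).const_mul B))
    have b : -4 * w x = f2 x - (A * (-2 * (2 * cos (2 * x))) + B * (2 * (-2 * sin (2 * x)))) := by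
      simp only [hw]
      have := i1 x
      linarith
    rw [b]
    exact a
  have j3 : ∀ x, HasDerivAt (fun x => w1 x ^ 2 + 4 * w x ^ 2) 0 x := by
    intro x
    have a := ((j2 x).pow 2).add (((j1 x).pow 2).const_mul 4)
    have b : (0:ℝ) = (2:ℕ) * w1 x ^ (2 - 1) * (-4 * w x) + 4 * ((2:ℕ) * w x ^ (2 - 1) * w1 x) := by
      norm_num
      ring
    rw [b]
    exact a
  have j4 := is_const_of_deriv_eq_zero (fun y => (j3 y).differentiableAt) (fun y => (j3 y).deriv) φ 0
  have j5 : w 0 = 0 := by simp [hw, hA]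
  have j6 : w1 0 = 0 := by simp [hw1, hB]
  simp only [j5, j6] at j4
  have j7 : w φ = 0 := by nlinarith [sq_nonneg (w1 φ), sq_nonneg (w φ)]
  simp only [hw] at j7
  linarith

end Pool.Agent.H843R3.Str
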