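import Pool.Agent.H843R3.Str.Ell

set_option autoImplicit false

/-!
# Transitivity of the string construction characterises ellipses
-/

open MeasureTheory Set Real Metric Filter
open scoped Pointwise ENNReal Topology

namespace Pool.Agent.H843R3.Str

set_option maxHeartbeats 2000000

/-- an invertible triangular linear map -/
noncomputable def lin (p q s : ℝ) (hp : p ≠ 0) (hs : s ≠ 0) : E2 ≃ₗ[ℝ] E2 where
  toFun x := !₂[p * x 0, q * x 0 + s * x 1]
  map_add' x y := by
    ext i
    fin_cases i <;> simp <;> ring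
  map_smul' c x := by
    ext i
    fin_cases i <;> simp <;> ring
  invFun y := !₂[y 0 / p, (y 1 - q * (y 0 / p)) / s]
  left_inv x := by
    ext i
    fin_cases i
    · simp
      field_simp
    · simp
      field_simp
      ring
  right_inv y := by
    ext i
    fin_cases i
    · simp
      field_simp
    · simp
      field_simp
      ring

theorem hull_len {A : Set E2} (hA : IsCompact A) (hc : Convex ℝ A) (hi : (interior A).Nonempty)
    (x0 y : E2) :
    ((μH[1] : Measure E2) (frontier (convexHull ℝ (insert y A)))).toReal =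
      Lam (fun φ => supp A φ - dt x0 φ) (y - x0) := by
  have hne : A.Nonempty := hi.mono interior_subset
  have h1 := cauchy (compact_hull_insert hA hc hne y) (convex_convexHull ℝ _)
    (hi.mono (interior_mono ((subset_insert y A).trans (subset_convexHull ℝ _))))
  rw [h1]
  obtain ⟨R, hR⟩ := hA.isBounded.exists_norm_le
  have hcs := continuous_of_lip (supp_lip hA hne hR)
  have h2 : ∀ φ, supp (convexHull ℝ (insert y A)) φ =
      max (supp A φ - dt x0 φ) (dt (y - x0) φ) + dt x0 φ := by
    intro φ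
    rw [supp_hull_insert hA hc hne, dt_sub, max_sub_sub_right, sub_add_cancel]
  simp only [h2]
  rw [intervalIntegral.integral_add, integral_dt, add_zero]
  · rfl
  · exact (cont_max (hcs.sub (continuous_dt x0)) _).intervalIntegrable _ _
  · exact (continuous_dt x0).intervalIntegrable _ _

theorem per_eq {A : Set E2} (hA : IsCompact A) (hc : Convex ℝ A) (hi : (interior A).Nonempty)
    (x0 : E2) :
    ((μH[1] : Measure E2) (frontier A)).toReal =
      ∫ φ in (0:ℝ)..(2 * π), (supp A φ - dt x0 φ) := by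
  have hne : A.Nonempty := hi.mono interior_subset
  obtain ⟨R, hR⟩ := hA.isBounded.exists_norm_le
  have hcs := continuous_of_lip (supp_lip hA hne hR)
  rw [cauchy hA hc hi, intervalIntegral.integral_sub (hcs.intervalIntegrable _ _)
    ((continuous_dt x0).intervalIntegrable _ _), integral_dt, sub_zero]

/-- sublevel sets are compact convex bodies -/
theorem level_body {h : ℝ → ℝ} (hc : Continuous h) (hp : ∀ φ, h (φ + 2 * π) = h φ)
    (hpos : ∀ φ, 0 ≤ h φ) (x0 : E2) {ℓ : ℝ} (hℓ : ∫ φ in (0:ℝ)..(2 * π), h φ < ℓ) :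
    IsCompact {x : E2 | Lam h (x - x0) ≤ ℓ} ∧ Convex ℝ {x : E2 | Lam h (x - x0) ≤ ℓ} ∧
      (interior {x : E2 | Lam h (x - x0) ≤ ℓ}).Nonempty := by
  have hcont : Continuous fun x : E2 => Lam h (x - x0) :=
    (continuous_Lam hc).comp (by fun_prop)
  refine ⟨?_, ?_, ?_⟩
  · apply Metric.isCompact_of_isClosed_isBounded (isClosed_le hcont continuous_const)
    rw [isBounded_iff_forall_norm_le]
    refine ⟨ℓ / 2 + ‖x0‖, fun x hx => ?_⟩
    have h1 := norm_le_Lam hc hp hpos (x - x0)
    have h2 : Lam h (x - x0) ≤ ℓ := hx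
    have h3 : ‖x‖ ≤ ‖x - x0‖ + ‖x0‖ := by
      have := norm_add_le (x - x0) x0
      rwa [sub_add_cancel] at this
    linarith
  · intro x hx y hy s t hs ht hst
    have h1 : Lam h (x - x0) ≤ ℓ := hx
    have h2 : Lam h (y - x0) ≤ ℓ := hy
    have h3 := Lam_convex hc (x - x0) (y - x0) hs ht hst
    have h4 : s • (x - x0) + t • (y - x0) = s • x + t • y - x0 := by
      have : x0 = (s + t) • x0 := by rw [hst, one_smul]
      calc s • (x - x0) + t • (y - x0) = s • x + t • y - (s + t) • x0 := by
            rw [smul_sub, smul_sub, add_smul]; abel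
        _ = s • x + t • y - x0 := by rw [← this]
    rw [h4] at h3
    have h5 := mul_le_mul_of_nonneg_left h1 hs
    have h6 := mul_le_mul_of_nonneg_left h2 ht
    have h7 : s * ℓ + t * ℓ = ℓ := by rw [← add_mul, hst, one_mul]
    show Lam h (s • x + t • y - x0) ≤ ℓ
    linarith
  · have hop : IsOpen {x : E2 | Lam h (x - x0) < ℓ} := isOpen_lt hcont continuous_const
    have hsub : {x : E2 | Lam h (x - x0) < ℓ} ⊆ {x : E2 | Lam h (x - x0) ≤ ℓ} :=
      fun x (hx : Lam h (x - x0) < ℓ) => hx.le
    refine ⟨x0, interior_maximal hsub hop ?_⟩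
    show Lam h (x0 - x0) < ℓ
    rw [sub_self, Lam_zero hpos]
    exact hℓ

/-- **Main theorem.** -/
theorem main (K : Set E2) (hK : IsCompact K) (hc : Convex ℝ K) (hi : (interior K).Nonempty)
    (Htr : ∀ ℓ1 : ℝ, ((μH[1] : Measure E2) (frontier K)).toReal < ℓ1 →
        ∀ ℓ2 : ℝ,
          ((μH[1] : Measure E2)
              (frontier {x : E2 |
                ((μH[1] : Measure E2)
                  (frontier (convexHull ℝ (insert x K)))).toReal ≤ ℓ1})).toReal < ℓ2 →
          ∃ ℓ3 : ℝ,
            {y : E2 |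
              ((μH[1] : Measure E2)
                (frontier (convexHull ℝ (insert y
                  {x : E2 |
                    ((μH[1] : Measure E2)
                      (frontier (convexHull ℝ (insert x K)))).toReal ≤ ℓ1})))).toReal = ℓ2}
            = {y : E2 |
              ((μH[1] : Measure E2)
                (frontier (convexHull ℝ (insert y K)))).toReal = ℓ3}) :
    ∃ f : E2 ≃ᵃ[ℝ] E2, K = f '' Metric.closedBall 0 1 := by
  obtain ⟨x0, hx0⟩ := hi
  have hi : (interior K).Nonempty := ⟨x0, hx0⟩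
  have hne : K.Nonempty := ⟨x0, interior_subset hx0⟩
  have hsf := suppFn_supp hK hne
  set h : ℝ → ℝ := fun φ => supp K φ - dt x0 φ with hh
  have hh' : SuppFn h := by
    refine ⟨fun φ => ?_, fun a ψ b h1 h2 h3 => ?_, fun φ => ?_⟩
    · simp only [hh]
      rw [hsf.periodic, dt_add_two_pi]
    · simp only [hh]
      have e1 := hsf.rel a ψ b h1 h2 h3
      have e2 := dt_rel x0 a ψ b
      linarith
    · simp only [hh]
      have e1 := hsf.opp φ
      rw [dt_add_pi]
      linarith
  obtain ⟨R, hR⟩ := hK.isBounded.exists_norm_le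
  set M := max (R + ‖x0‖) 1 with hMdef
  have hM : 1 ≤ M := le_max_right _ _
  have hlip : ∀ φ ψ, |h φ - h ψ| ≤ M * |φ - ψ| := by
    intro φ ψ
    have e1 := supp_lip hK hne hR φ ψ
    have e2 := abs_dt_sub_le x0 φ ψ
    have e3 : |h φ - h ψ| ≤ |supp K φ - supp K ψ| + |dt x0 φ - dt x0 ψ| := by
      have : h φ - h ψ = (supp K φ - supp K ψ) - (dt x0 φ - dt x0 ψ) := by
        simp only [hh]; ring
      rw [this]
      exact abs_sub _ _
    have e4 : (R + ‖x0‖) * |φ - ψ| ≤ M * |φ - ψ| :=
      mul_le_mul_of_nonneg_right (le_max_left _ _) (abs_nonneg _)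
    linarith
  have hle : ∀ φ, h φ ≤ M := by
    intro φ
    have e1 : supp K φ ≤ R := supp_le hne fun x hx => (le_abs_self _).trans
      ((abs_dt_le x φ).trans (hR x hx))
    have e2 := (abs_le.mp (abs_dt_le x0 φ)).1
    have e3 : R + ‖x0‖ ≤ M := le_max_left _ _
    simp only [hh]
    linarith
  obtain ⟨ρ, hρ, hρ2⟩ : ∃ ρ : ℝ, 0 < ρ ∧ ∀ φ, ρ ≤ h φ := by
    obtain ⟨ρ, hρ, hball⟩ := Metric.mem_nhds_iff.mp (mem_interior_iff_mem_nhds.mp hx0)
    refine ⟨ρ / 2, by positivity, fun φ => ?_⟩
    have hm : x0 + (ρ / 2) • nn φ ∈ K := by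
      apply hball
      rw [mem_ball, dist_eq_norm, add_sub_cancel_left, norm_smul_nn (by positivity)]
      linarith
    have e1 := le_supp hK hm φ
    rw [dt_add, dt_smul_nn, sub_self, cos_zero, mul_one] at e1
    simp only [hh]
    linarith
  have hpos : ∀ φ, 0 ≤ h φ := fun φ => hρ.le.trans (hρ2 φ)
  have hp := hh'.periodic
  have hcont := continuous_of_lip hlip
  have hlenK : ∀ y, ((μH[1] : Measure E2) (frontier (convexHull ℝ (insert y K)))).toReal =
      Lam h (y - x0) := fun y => hull_len hK hc hi x0 y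
  simp only [hlenK] at Htr
  -- the hypothesis in terms of support functions
  have H : Hyp h := by
    intro ℓ hℓ
    have hℓ' : ((μH[1] : Measure E2) (frontier K)).toReal < ℓ := by
      rw [per_eq hK hc hi x0]
      exact hℓ
    have Hℓ := Htr ℓ hℓ'
    obtain ⟨b1, b2, b3⟩ := level_body hcont hp hpos x0 hℓ
    set K1 : Set E2 := {x : E2 | Lam h (x - x0) ≤ ℓ} with hK1
    have hne1 : K1.Nonempty := b3.mono interior_subset
    have hsub : K ⊆ K1 := by
      intro x hx
      show Lam h (x - x0) ≤ ℓ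
      have : Lam h (x - x0) = ∫ φ in (0:ℝ)..(2 * π), h φ := by
        unfold Lam
        apply intervalIntegral.integral_congr
        intro φ _
        apply max_eq_left
        rw [dt_sub]
        simp only [hh]
        linarith [le_supp hK hx φ]
      rw [this]
      exact hℓ.le
    obtain ⟨R1, hR1⟩ := b1.isBounded.exists_norm_le
    refine ⟨fun φ => supp K1 φ - dt x0 φ, fun φ => ?_, ⟨R1 + ‖x0‖, fun φ ψ => ?_, fun φ => ?_⟩,
      fun φ => ?_, fun z φ hz => ?_, fun φ => ?_, fun ℓ2 hℓ2 => ?_⟩
    · simp only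
      rw [supp_add_two_pi, dt_add_two_pi]
    · simp only
      have e1 := supp_lip b1 hne1 hR1 φ ψ
      have e2 := abs_dt_sub_le x0 φ ψ
      have e3 : |supp K1 φ - dt x0 φ - (supp K1 ψ - dt x0 ψ)| ≤
          |supp K1 φ - supp K1 ψ| + |dt x0 φ - dt x0 ψ| := by
        have : supp K1 φ - dt x0 φ - (supp K1 ψ - dt x0 ψ) =
            (supp K1 φ - supp K1 ψ) - (dt x0 φ - dt x0 ψ) := by ring
        rw [this]
        exact abs_sub _ _
      linarith
    · simp only
      have e1 : supp K1 φ ≤ R1 := supp_le hne1 fun x hx => (le_abs_self _).trans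
        ((abs_dt_le x φ).trans (hR1 x hx))
      have e2 := (abs_le.mp (abs_dt_le x0 φ)).1
      linarith
    · simp only [hh]
      linarith [supp_mono hne b1 hsub φ]
    · simp only
      have hm : x0 + z ∈ K1 := by
        show Lam h (x0 + z - x0) ≤ ℓ
        rw [add_sub_cancel_left]
        exact hz
      have := le_supp b1 hm φ
      rw [dt_add] at this
      linarith
    · obtain ⟨x, hx, hx2⟩ := exists_supp b1 hne1 φ
      refine ⟨x - x0, hx, ?_⟩
      rw [dt_sub, hx2]
    · rw [← per_eq b1 b2 b3 x0] at hℓ2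
      obtain ⟨ℓ3, hℓ3⟩ := Hℓ ℓ2 hℓ2
      refine ⟨ℓ3, fun z => ?_⟩
      have hlen1 := hull_len b1 b2 b3 x0 (x0 + z)
      rw [add_sub_cancel_left] at hlen1
      rw [← hlen1]
      have e := Set.ext_iff.mp hℓ3 (x0 + z)
      simp only [mem_ofPred_eq, add_sub_cancel_left] at e
      exact e
  -- consequences
  obtain ⟨v, hv⟩ := od_trig H hp hpos hM hlip hle
  obtain ⟨k, A, B, hF⟩ : ∃ k A B : ℝ, ∀ φ, ev h φ ^ 2 = k + A * cos (2 * φ) + B * sin (2 * φ) := by
    set β0 := min (ρ / (π * M)) 1 with hβ0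
    have hβpos : 0 < β0 := by
      apply lt_min _ one_pos
      positivity
    have hβ1 : β0 ≤ 1 := min_le_right _ _
    apply solve (F := fun φ => ev h φ ^ 2) (β0 := β0) _ hβpos (by linarith [pi_gt_three])
    · intro β a b φ
      have b1 : cos (π / 2 - β) * (π * M) < 2 * ρ := by
        rw [cos_pi_div_two_sub]
        have c1 := Real.sin_lt a
        have c2 : β ≤ ρ / (π * M) := b.le.trans (min_le_left _ _)
        have hpm : 0 < π * M := by positivity
        rw [le_div_iff₀ hpm] at c2
        nlinarith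
      exact functional H hh' hρ hρ2 hM hlip hle (by linarith [pi_gt_three]) (by linarith) b1 φ
    · intro φ
      rw [ev_add_pi hp]
  -- the quadratic form
  have hevpos : ∀ φ, ρ ≤ ev h φ := by
    intro φ
    have e1 := hρ2 φ
    have e2 := hρ2 (φ + π)
    unfold ev
    linarith
  have hsK : ∀ φ, supp K φ = dt (x0 + v) φ + ev h φ := by
    intro φ
    have e1 := ev_add_od h φ
    rw [hv] at e1
    rw [dt_add]
    simp only [hh] at e1 ⊢
    linarith
  set a := k + A with ha
  set c := k - A with hc'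
  have hquad : ∀ φ, ev h φ ^ 2 = a * cos φ ^ 2 + 2 * B * (sin φ * cos φ) + c * sin φ ^ 2 := by
    intro φ
    rw [hF, cos_two_mul, sin_two_mul, ha, hc']
    have := sin_sq_add_cos_sq φ
    have e : sin φ ^ 2 = 1 - cos φ ^ 2 := by linarith
    rw [e]
    ring
  have hapos : 0 < a := by
    have e := hquad 0
    rw [cos_zero, sin_zero] at e
    have := hevpos 0
    nlinarith
  have hdet : 0 < a * c - B ^ 2 := by
    set z : ℂ := ⟨-B, a⟩ with hz
    have hz1 : -B = ‖z‖ * cos z.arg := (Complex.norm_mul_cos_arg z).symm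
    have hz2 : a = ‖z‖ * sin z.arg := (Complex.norm_mul_sin_arg z).symm
    have e := hquad z.arg
    have hzn : 0 < ‖z‖ := by
      rw [norm_pos_iff]
      intro h0
      rw [h0, norm_zero, zero_mul] at hz2
      linarith
    have e2 : ‖z‖ ^ 2 * ev h z.arg ^ 2 = a * (a * c - B ^ 2) := by
      rw [e]
      calc ‖z‖ ^ 2 * (a * cos z.arg ^ 2 + 2 * B * (sin z.arg * cos z.arg) + c * sin z.arg ^ 2)
          = a * (‖z‖ * cos z.arg) ^ 2 + 2 * B * ((‖z‖ * sin z.arg) * (‖z‖ * cos z.arg)) +
            c * (‖z‖ * sin z.arg) ^ 2 := by ring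
        _ = a * (-B) ^ 2 + 2 * B * (a * -B) + c * a ^ 2 := by rw [← hz1, ← hz2]
        _ = a * (a * c - B ^ 2) := by ring
    have e3 : 0 < ev h z.arg := lt_of_lt_of_le hρ (hevpos _)
    have e4 : 0 < a * (a * c - B ^ 2) := by
      rw [← e2]
      positivity
    exact (mul_pos_iff_of_pos_left hapos).mp e4
  set p := √a with hpdef
  have hp0 : 0 < p := sqrt_pos.mpr hapos
  have hp2 : p ^ 2 = a := sq_sqrt hapos.le
  set q := B / p with hq
  have hs2 : 0 < c - q ^ 2 := by
    rw [hq, div_pow, hp2]
    have : c - B ^ 2 / a = (a * c - B ^ 2) / a := by field_simp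
    rw [this]
    positivity
  set s := √(c - q ^ 2) with hs
  have hs0 : 0 < s := sqrt_pos.mpr hs2
  have hss : s ^ 2 = c - q ^ 2 := sq_sqrt hs2.le
  set T := lin p q s hp0.ne' hs0.ne' with hT
  set f : E2 ≃ᵃ[ℝ] E2 := T.toAffineEquiv.trans (AffineEquiv.constVAdd ℝ E2 (x0 + v)) with hf
  have hfx : ∀ x, f x = (x0 + v) + T x := by
    intro x
    simp [hf, add_assoc]
  have hTx : ∀ x φ, dt (T x) φ = x 0 * (p * cos φ + q * sin φ) + x 1 * (s * sin φ) := by
    intro x φ
    simp only [hT, lin, dt]
    simp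
    ring
  have hnorm : ∀ φ, (p * cos φ + q * sin φ) ^ 2 + (s * sin φ) ^ 2 = ev h φ ^ 2 := by
    intro φ
    rw [hquad]
    have hpq : p * q = B := by rw [hq]; field_simp
    calc (p * cos φ + q * sin φ) ^ 2 + (s * sin φ) ^ 2
        = p ^ 2 * cos φ ^ 2 + 2 * (p * q) * (sin φ * cos φ) + (q ^ 2 + s ^ 2) * sin φ ^ 2 := by ring
      _ = a * cos φ ^ 2 + 2 * B * (sin φ * cos φ) + c * sin φ ^ 2 := by
        rw [hp2, hpq, hss]; ring
  set E : Set E2 := f '' Metric.closedBall 0 1 with hE
  have hEc : IsCompact E := (isCompact_closedBall 0 1).image f.continuous_of_finiteDimensional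
  have hEconv : Convex ℝ E := (convex_closedBall 0 1).affine_image f.toAffineMap
  have hEne : E.Nonempty := ⟨f 0, 0, by simp, rfl⟩
  have hEs : ∀ φ, supp E φ = supp K φ := by
    intro φ
    rw [hsK]
    have hevp : 0 < ev h φ := lt_of_lt_of_le hρ (hevpos _)
    apply le_antisymm
    · apply supp_le hEne
      rintro _ ⟨x, hx, rfl⟩
      rw [hfx, dt_add, hTx]
      have hx1 : x 0 ^ 2 + x 1 ^ 2 ≤ 1 := by
        rw [← norm_sq]
        have : ‖x‖ ≤ 1 := by simpa using hx
        have h0 := norm_nonneg x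
        nlinarith
      have : x 0 * (p * cos φ + q * sin φ) + x 1 * (s * sin φ) ≤ ev h φ := by
        apply le_of_sq_le_sq _ hevp.le
        rw [← hnorm φ]
        set u1 := p * cos φ + q * sin φ
        set u2 := s * sin φ
        nlinarith [sq_nonneg (x 0 * u2 - x 1 * u1), sq_nonneg u1, sq_nonneg u2]
      linarith
    · set u : E2 := !₂[(p * cos φ + q * sin φ) / ev h φ, s * sin φ / ev h φ] with hu
      have hu1 : u ∈ Metric.closedBall (0 : E2) 1 := by
        rw [mem_closedBall_zero_iff]
        have e1 : ‖u‖ ^ 2 = 1 := by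
          rw [norm_sq]
          simp only [hu]
          simp only [Matrix.cons_val_zero, Matrix.cons_val_one]
          rw [div_pow, div_pow, ← add_div, hnorm]
          exact div_self (by positivity)
        have := norm_nonneg u
        nlinarith
      have e2 := le_supp hEc (mem_image_of_mem f hu1) φ
      rw [hfx, dt_add, hTx] at e2
      have e3 : u 0 * (p * cos φ + q * sin φ) + u 1 * (s * sin φ) = ev h φ := by
        have : u 0 * (p * cos φ + q * sin φ) + u 1 * (s * sin φ) =
            ((p * cos φ + q * sin φ) ^ 2 + (s * sin φ) ^ 2) / ev h φ := by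
          simp only [hu]
          simp only [Matrix.cons_val_zero, Matrix.cons_val_one]
          ring
        rw [this, hnorm, pow_two]
        field_simp
      linarith
  refine ⟨f, ?_⟩
  show K = E
  apply Subset.antisymm
  · intro x hx
    exact mem_of_dt_le hEc hEconv hEne fun φ => by
      rw [hEs]; exact le_supp hK hx φ
  · intro x hx
    exact mem_of_dt_le hK hc hne fun φ => by
      rw [← hEs]; exact le_supp hEc hx φ

end Pool.Agent.H843R3.Str
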