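import Pool.Agent.H843R3.Str.Cauchy

set_option autoImplicit false

/-!
# The length functional of the string construction
-/

open MeasureTheory Set Real Metric Filter
open scoped Pointwise ENNReal Topology

namespace Pool.Agent.H843R3.Str

/-- the length of the string around the body with support function `h` and the point `z` -/
noncomputable def Lam (h : ℝ → ℝ) (z : E2) : ℝ := ∫ φ in (0:ℝ)..(2 * π), max (h φ) (dt z φ)

/-- the part of the string on the far side -/
noncomputable def H0 (h : ℝ → ℝ) (φ : ℝ) : ℝ := ∫ ψ in (φ + π / 2)..(φ + 3 * π / 2), h ψ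

variable {h : ℝ → ℝ}

theorem cont_max (hc : Continuous h) (z : E2) : Continuous fun φ => max (h φ) (dt z φ) :=
  hc.max (continuous_dt z)

theorem Lam_shift (hp : ∀ φ, h (φ + 2 * π) = h φ) (z : E2) (a : ℝ) :
    Lam h z = ∫ φ in a..(a + 2 * π), max (h φ) (dt z φ) := by
  have hper : Function.Periodic (fun φ => max (h φ) (dt z φ)) (2 * π) := by
    intro φ
    simp only [hp, dt_add_two_pi]
  have h1 := hper.intervalIntegral_add_eq 0 a
  rw [zero_add] at h1
  exact h1

theorem int_dt (z : E2) (φ α : ℝ) : ∫ ψ in (φ - α)..(φ + α), dt z ψ = 2 * sin α * dt z φ := by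
  unfold dt
  rw [intervalIntegral.integral_add, intervalIntegral.integral_const_mul,
    intervalIntegral.integral_const_mul, integral_cos, integral_sin]
  · rw [sin_add, sin_sub, cos_add, cos_sub]
    ring
  · exact Continuous.intervalIntegrable (by fun_prop) _ _
  · exact Continuous.intervalIntegrable (by fun_prop) _ _

theorem Lam_ge (hc : Continuous h) (hp : ∀ φ, h (φ + 2 * π) = h φ) (z : E2) (φ α : ℝ)
    (h0 : 0 ≤ α) (h1 : α ≤ π) :
    2 * sin α * dt z φ + ∫ ψ in (φ + α)..(φ - α + 2 * π), h ψ ≤ Lam h z := by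
  rw [Lam_shift hp z (φ - α), ← int_dt z φ α]
  have e1 : ∫ ψ in (φ - α)..(φ - α + 2 * π), max (h ψ) (dt z ψ) =
      (∫ ψ in (φ - α)..(φ + α), max (h ψ) (dt z ψ)) +
      ∫ ψ in (φ + α)..(φ - α + 2 * π), max (h ψ) (dt z ψ) := by
    rw [intervalIntegral.integral_add_adjacent_intervals] <;>
      exact (cont_max hc z).intervalIntegrable _ _
  rw [e1]
  apply add_le_add
  · apply intervalIntegral.integral_mono_on (by linarith)
      ((continuous_dt z).intervalIntegrable _ _) ((cont_max hc z).intervalIntegrable _ _)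
    intro x _
    exact le_max_right _ _
  · apply intervalIntegral.integral_mono_on (by linarith)
      (hc.intervalIntegrable _ _) ((cont_max hc z).intervalIntegrable _ _)
    intro x _
    exact le_max_left _ _

theorem Lam_eq (hc : Continuous h) (hp : ∀ φ, h (φ + 2 * π) = h φ) (z : E2) (φ α : ℝ)
    (h0 : 0 ≤ α) (h1 : α ≤ π) (h2 : ∀ ψ, φ - α ≤ ψ → ψ ≤ φ + α → h ψ ≤ dt z ψ)
    (h3 : ∀ ψ, φ + α ≤ ψ → ψ ≤ φ - α + 2 * π → dt z ψ ≤ h ψ) :
    Lam h z = 2 * sin α * dt z φ + ∫ ψ in (φ + α)..(φ - α + 2 * π), h ψ := by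
  rw [Lam_shift hp z (φ - α), ← int_dt z φ α]
  have e1 : ∫ ψ in (φ - α)..(φ - α + 2 * π), max (h ψ) (dt z ψ) =
      (∫ ψ in (φ - α)..(φ + α), max (h ψ) (dt z ψ)) +
      ∫ ψ in (φ + α)..(φ - α + 2 * π), max (h ψ) (dt z ψ) := by
    rw [intervalIntegral.integral_add_adjacent_intervals] <;>
      exact (cont_max hc z).intervalIntegrable _ _
  rw [e1]
  congr 1
  · apply intervalIntegral.integral_congr
    intro x hx
    rw [uIcc_of_le (by linarith)] at hx
    exact max_eq_right (h2 x hx.1 hx.2)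
  · apply intervalIntegral.integral_congr
    intro x hx
    rw [uIcc_of_le (by linarith)] at hx
    exact max_eq_left (h3 x hx.1 hx.2)

theorem Lam_ge_two (hc : Continuous h) (hp : ∀ φ, h (φ + 2 * π) = h φ) (z : E2) (φ : ℝ) :
    2 * dt z φ + H0 h φ ≤ Lam h z := by
  have := Lam_ge hc hp z φ (π / 2) (by positivity) (by linarith [pi_pos])
  rw [sin_pi_div_two, mul_one, show φ - π / 2 + 2 * π = φ + 3 * π / 2 by ring] at this
  exact this

theorem Lam_lip (hc : Continuous h) (x y : E2) : |Lam h x - Lam h y| ≤ 2 * π * ‖x - y‖ := by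
  unfold Lam
  rw [← intervalIntegral.integral_sub ((cont_max hc x).intervalIntegrable _ _)
    ((cont_max hc y).intervalIntegrable _ _)]
  have h1 := intervalIntegral.norm_integral_le_of_norm_le_const
    (a := 0) (b := 2 * π) (C := ‖x - y‖)
    (f := fun φ => max (h φ) (dt x φ) - max (h φ) (dt y φ)) (by
      intro φ _
      rw [Real.norm_eq_abs]
      have e := abs_max_sub_max_le_abs (dt x φ) (dt y φ) (h φ)
      rw [max_comm (h φ), max_comm (h φ)]
      refine e.trans ?_
      rw [← dt_sub]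
      exact abs_dt_le _ _)
  rw [Real.norm_eq_abs, sub_zero, abs_of_pos (by positivity : (0:ℝ) < 2 * π)] at h1
  linarith

theorem continuous_Lam (hc : Continuous h) : Continuous (Lam h) := by
  have : LipschitzWith ⟨2 * π, by positivity⟩ (Lam h) := by
    apply LipschitzWith.of_dist_le_mul
    intro x y
    rw [Real.dist_eq, dist_eq_norm]
    exact Lam_lip hc x y
  exact this.continuous

theorem Lam_convex (hc : Continuous h) (x y : E2) {s t : ℝ} (hs : 0 ≤ s) (ht : 0 ≤ t)
    (hst : s + t = 1) : Lam h (s • x + t • y) ≤ s * Lam h x + t * Lam h y := by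
  unfold Lam
  rw [← intervalIntegral.integral_const_mul, ← intervalIntegral.integral_const_mul,
    ← intervalIntegral.integral_add]
  · apply intervalIntegral.integral_mono_on (by positivity)
    · exact (cont_max hc _).intervalIntegrable _ _
    · exact (((cont_max hc x).const_mul s).add ((cont_max hc y).const_mul t)).intervalIntegrable _ _
    intro φ _
    rw [dt_add, dt_smul, dt_smul]
    apply max_le
    · have h1 := mul_le_mul_of_nonneg_left (le_max_left (h φ) (dt x φ)) hs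
      have h2 := mul_le_mul_of_nonneg_left (le_max_left (h φ) (dt y φ)) ht
      have h3 : s * h φ + t * h φ = h φ := by rw [← add_mul, hst, one_mul]
      linarith
    · have h1 := mul_le_mul_of_nonneg_left (le_max_right (h φ) (dt x φ)) hs
      have h2 := mul_le_mul_of_nonneg_left (le_max_right (h φ) (dt y φ)) ht
      linarith
  · exact ((cont_max hc x).const_mul s).intervalIntegrable _ _
  · exact ((cont_max hc y).const_mul t).intervalIntegrable _ _

theorem Lam_zero (hpos : ∀ φ, 0 ≤ h φ) : Lam h 0 = ∫ φ in (0:ℝ)..(2 * π), h φ := by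
  unfold Lam
  apply intervalIntegral.integral_congr
  intro φ _
  simp only [dt_zero]
  exact max_eq_left (hpos φ)

/-- the unit vector of angle `θ` -/
noncomputable def nn (θ : ℝ) : E2 := !₂[cos θ, sin θ]

theorem dt_nn (θ φ : ℝ) : dt (nn θ) φ = cos (φ - θ) := by
  simp only [dt, nn, cos_sub]
  simp
  ring

theorem norm_nn (θ : ℝ) : ‖nn θ‖ = 1 := by
  have e1 : ‖nn θ‖ ^ 2 = 1 ^ 2 := by
    rw [norm_sq]
    simp [nn]
  exact (pow_left_inj₀ (norm_nonneg _) zero_le_one two_ne_zero).mp e1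

theorem dt_smul_nn (r θ φ : ℝ) : dt (r • nn θ) φ = r * cos (φ - θ) := by
  rw [dt_smul, dt_nn]

theorem norm_smul_nn {r : ℝ} (hr : 0 ≤ r) (θ : ℝ) : ‖r • nn θ‖ = r := by
  rw [norm_smul, norm_nn, mul_one, Real.norm_of_nonneg hr]

theorem H0_nonneg (hpos : ∀ φ, 0 ≤ h φ) (φ : ℝ) : 0 ≤ H0 h φ :=
  intervalIntegral.integral_nonneg (by linarith [pi_pos]) fun _ _ => hpos _

theorem norm_le_Lam (hc : Continuous h) (hp : ∀ φ, h (φ + 2 * π) = h φ)
    (hpos : ∀ φ, 0 ≤ h φ) (z : E2) : 2 * ‖z‖ ≤ Lam h z := by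
  obtain ⟨θ, hθ⟩ := exists_arg z
  have h1 := Lam_ge_two hc hp z θ
  have h2 := H0_nonneg hpos θ
  rw [hθ] at h1
  linarith

/-- every large level is attained on every ray -/
theorem exists_level (hc : Continuous h) (hp : ∀ φ, h (φ + 2 * π) = h φ)
    (hpos : ∀ φ, 0 ≤ h φ) (θ : ℝ) {ℓ : ℝ} (hℓ : ∫ φ in (0:ℝ)..(2 * π), h φ ≤ ℓ) :
    ∃ r : ℝ, 0 ≤ r ∧ (ℓ - ∫ φ in (0:ℝ)..(2 * π), h φ) / (2 * π) ≤ r ∧ 2 * r ≤ ℓ ∧
      Lam h (r • nn θ) = ℓ := by
  have hcont : Continuous fun r : ℝ => Lam h (r • nn θ) :=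
    (continuous_Lam hc).comp (by fun_prop)
  have h0 : Lam h ((0:ℝ) • nn θ) = ∫ φ in (0:ℝ)..(2 * π), h φ := by
    rw [zero_smul, Lam_zero hpos]
  have hℓ0 : 0 ≤ ℓ := by
    have : 0 ≤ ∫ φ in (0:ℝ)..(2 * π), h φ :=
      intervalIntegral.integral_nonneg (by positivity) fun _ _ => hpos _
    linarith
  have h1 : ℓ ≤ Lam h (ℓ • nn θ) := by
    have := norm_le_Lam hc hp hpos (ℓ • nn θ)
    rw [norm_smul_nn hℓ0] at this
    linarith
  have h2 := intermediate_value_Icc hℓ0 hcont.continuousOn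
  obtain ⟨r, hr, hr2⟩ := h2 ⟨by rw [h0]; exact hℓ, h1⟩
  refine ⟨r, hr.1, ?_, ?_, hr2⟩
  · have h3 := Lam_lip hc (r • nn θ) 0
    rw [sub_zero, norm_smul_nn hr.1, Lam_zero hpos] at h3
    simp only at hr2
    rw [hr2] at h3
    have h4 := le_abs_self (ℓ - ∫ φ in (0:ℝ)..(2 * π), h φ)
    rw [div_le_iff₀ (by positivity)]
    linarith
  · have := norm_le_Lam hc hp hpos (r • nn θ)
    rw [norm_smul_nn hr.1] at this
    simp only at hr2
    linarith

end Pool.Agent.H843R3.Str
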