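import Pool.Agent.H843R3.Str.Basic

set_option autoImplicit false

/-!
# Monotonicity and homogeneity of the perimeter, support-like functions, vertices
-/

open MeasureTheory Set Real Metric
open scoped Pointwise ENNReal

namespace Pool.Agent.H843R3.Str

/-- nearest-point projection -/
theorem exists_proj {K : Set E2} (hc : Convex ℝ K) (hK : IsCompact K) (hne : K.Nonempty) :
    ∃ p : E2 → E2, LipschitzWith 1 p ∧
      ∀ u v : E2, v ∈ K → (∀ w ∈ K, inner ℝ (u - v) (w - v) ≤ 0) → p u = v := by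
  have h1 := exists_norm_eq_iInf_of_complete_convex hne hK.isComplete hc
  choose p hp1 hp2 using h1
  have hp3 : ∀ u, ∀ w ∈ K, inner ℝ (u - p u) (w - p u) ≤ 0 := fun u =>
    (norm_eq_iInf_iff_real_inner_le_zero hc (hp1 u)).mp (hp2 u)
  refine ⟨p, ?_, ?_⟩
  · apply LipschitzWith.of_dist_le_mul
    intro x y
    rw [NNReal.coe_one, one_mul, dist_eq_norm, dist_eq_norm]
    have a1 := hp3 x (p y) (hp1 y)
    have a2 := hp3 y (p x) (hp1 x)
    have a3 : ‖p x - p y‖ ^ 2 ≤ inner ℝ (x - y) (p x - p y) := by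
      rw [← real_inner_self_eq_norm_sq]
      simp only [inner_sub_left, inner_sub_right] at a1 a2 ⊢
      rw [real_inner_comm (p x) (p y)] at *
      linarith
    have a4 : inner ℝ (x - y) (p x - p y) ≤ ‖x - y‖ * ‖p x - p y‖ := real_inner_le_norm _ _
    rcases eq_or_lt_of_le (norm_nonneg (p x - p y)) with h | h
    · rw [← h]; exact norm_nonneg _
    · nlinarith
  · intro u v hv h
    have a1 := hp3 u v hv
    have a2 := h (p u) (hp1 u)
    have a3 : ‖p u - v‖ ^ 2 ≤ 0 := by
      rw [← real_inner_self_eq_norm_sq]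
      simp only [inner_sub_left, inner_sub_right] at a1 a2 ⊢
      rw [real_inner_comm (p u) v] at *
      linarith
    have a4 : ‖p u - v‖ = 0 := by
      have := norm_nonneg (p u - v)
      nlinarith
    exact sub_eq_zero.mp (norm_eq_zero.mp a4)

/-- supporting direction at a boundary point -/
theorem exists_support {K : Set E2} (hc : Convex ℝ K) (hi : (interior K).Nonempty) {x : E2}
    (hx : x ∈ frontier K) : ∃ ν : E2, ν ≠ 0 ∧ ∀ w ∈ K, inner ℝ ν (w - x) ≤ 0 := by
  obtain ⟨f, hf⟩ := geometric_hahn_banach_open_point (x := x) hc.interior isOpen_interior hx.2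
  set ν := (InnerProductSpace.toDual ℝ E2).symm f with hν
  have hfν : ∀ w, f w = inner ℝ ν w := fun w => by
    rw [hν, InnerProductSpace.toDual_symm_apply]
  obtain ⟨y, hy⟩ := hi
  refine ⟨ν, ?_, ?_⟩
  · intro h0
    have := hf y hy
    rw [hfν, hfν, h0, inner_zero_left, inner_zero_left] at this
    exact lt_irrefl _ this
  · intro w hw
    rw [inner_sub_right, sub_nonpos, ← hfν, ← hfν]
    have hcl : w ∈ closure (interior K) := by
      rw [hc.closure_interior_eq_closure_of_nonempty_interior ⟨y, hy⟩]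
      exact subset_closure hw
    have : closure (interior K) ⊆ {w | f w ≤ f x} :=
      closure_minimal (fun w hw => (hf w hw).le) (isClosed_le f.continuous continuous_const)
    exact this hcl

/-- last point of a ray in a compact set is a boundary point -/
theorem exists_last {K : Set E2} (hK : IsCompact K) {x ν : E2} (hx : x ∈ K) (hν : ν ≠ 0) :
    ∃ t : ℝ, 0 ≤ t ∧ x + t • ν ∈ frontier K := by
  set S : Set ℝ := {t | 0 ≤ t ∧ x + t • ν ∈ K} with hS
  have hcont : Continuous (fun t : ℝ => x + t • ν) := by fun_prop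
  have hSc : IsClosed S := (isClosed_le continuous_const continuous_id).inter (hK.isClosed.preimage hcont)
  have hν' : 0 < ‖ν‖ := norm_pos_iff.mpr hν
  have hSb : Bornology.IsBounded S := by
    obtain ⟨B, hB⟩ := hK.isBounded.exists_norm_le
    rw [isBounded_iff_forall_norm_le]
    refine ⟨(B + ‖x‖) / ‖ν‖, fun t ht => ?_⟩
    rw [le_div_iff₀ hν']
    have h1 := hB _ ht.2
    have h2 : ‖t‖ * ‖ν‖ = ‖t • ν‖ := (norm_smul t ν).symm
    rw [h2]
    have h3 := norm_sub_le (x + t • ν) x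
    rw [add_sub_cancel_left] at h3
    linarith
  have hScomp : IsCompact S := Metric.isCompact_of_isClosed_isBounded hSc hSb
  have hSne : S.Nonempty := ⟨0, le_refl _, by simpa using hx⟩
  obtain ⟨t, ht, htmax⟩ := hScomp.exists_isGreatest hSne
  refine ⟨t, ht.1, subset_closure ht.2, ?_⟩
  intro hint
  have h1 : ∀ᶠ s in nhds t, x + s • ν ∈ K := by
    have := hcont.continuousAt.preimage_mem_nhds (mem_interior_iff_mem_nhds.mp hint)
    exact this
  have h2 : ∀ᶠ s in nhdsWithin t (Ioi t), x + s • ν ∈ K := h1.filter_mono nhdsWithin_le_nhds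
  obtain ⟨s, hs1, hs2⟩ := (h2.and self_mem_nhdsWithin).exists
  have h3 : t < s := hs2
  have h4 : s ∈ S := ⟨ht.1.trans h3.le, hs1⟩
  have h5 : s ≤ t := htmax h4
  exact absurd h3 (not_lt.mpr h5)

/-- **Monotonicity of the perimeter.** -/
theorem perim_mono {K K' : Set E2} (hc : Convex ℝ K) (hK : IsCompact K) (hi : (interior K).Nonempty)
    (hK' : IsCompact K') (h : K ⊆ K') :
    (μH[1] : Measure E2) (frontier K) ≤ μH[1] (frontier K') := by
  have hne : K.Nonempty := hi.mono interior_subset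
  obtain ⟨p, hp1, hp2⟩ := exists_proj hc hK hne
  have hsub : frontier K ⊆ p '' frontier K' := by
    intro x hx
    have hxK : x ∈ K := hK.isClosed.frontier_subset hx
    obtain ⟨ν, hν, hν2⟩ := exists_support hc hi hx
    obtain ⟨t, ht, ht2⟩ := exists_last hK' (h hxK) hν
    refine ⟨x + t • ν, ht2, ?_⟩
    apply hp2 _ _ hxK
    intro w hw
    rw [add_sub_cancel_left, inner_smul_left]
    exact mul_nonpos_of_nonneg_of_nonpos (by simpa using ht) (hν2 w hw)
  calc (μH[1] : Measure E2) (frontier K) ≤ μH[1] (p '' frontier K') := measure_mono hsub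
    _ ≤ ((1 : NNReal) : ℝ≥0∞) ^ (1:ℝ) * μH[1] (frontier K') := hp1.hausdorffMeasure_image_le zero_le_one _
    _ = μH[1] (frontier K') := by simp

theorem perim_smul {K : Set E2} {t : ℝ} (ht : 0 < t) :
    (μH[1] : Measure E2) (frontier (t • K)) = ENNReal.ofReal t * μH[1] (frontier K) := by
  have h1 : frontier (t • K) = t • frontier K := by
    have : (t • K) = (Homeomorph.smulOfNeZero t ht.ne') '' K := rfl
    rw [this, ← Homeomorph.image_frontier]
    rfl
  rw [h1, Measure.hausdorffMeasure_smul₀ zero_le_one ht.ne', NNReal.rpow_one]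
  rw [ENNReal.smul_def, smul_eq_mul]
  congr 1
  rw [ENNReal.ofReal, Real.nnnorm_of_nonneg ht.le]
  congr 1
  ext
  simp [ht.le]

/-- The properties of support functions which we use. -/
structure SuppFn (h : ℝ → ℝ) : Prop where
  periodic : ∀ φ, h (φ + 2 * π) = h φ
  rel : ∀ a ψ b, a ≤ ψ → ψ ≤ b → b - a ≤ π →
    sin (b - a) * h ψ ≤ sin (b - ψ) * h a + sin (ψ - a) * h b
  opp : ∀ φ, 0 ≤ h φ + h (φ + π)

theorem suppFn_supp {K : Set E2} (hK : IsCompact K) (hne : K.Nonempty) : SuppFn (supp K) where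
  periodic := supp_add_two_pi K
  rel _ _ _ h1 h2 h3 := supp_rel hK hne h1 h2 h3
  opp := supp_opp hK hne

/-- A point on the two support lines with normals `φ ± α` is outside exactly for the normals
between them. -/
theorem SuppFn.inner {h : ℝ → ℝ} (hh : SuppFn h) {P : E2} {φ α : ℝ} (h0 : 0 < α) (h1 : α < π / 2)
    (hp : dt P (φ + α) = h (φ + α)) (hm : dt P (φ - α) = h (φ - α)) {ψ : ℝ}
    (h2 : φ - α ≤ ψ) (h3 : ψ ≤ φ + α) : h ψ ≤ dt P ψ := by
  have e1 := hh.rel (φ - α) ψ (φ + α) h2 h3 (by linarith)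
  have e2 := dt_rel P (φ - α) ψ (φ + α)
  rw [hp, hm] at e2
  have e3 : 0 < sin (φ + α - (φ - α)) := sin_pos_of_pos_of_lt_pi (by linarith) (by linarith)
  rw [← e2] at e1
  exact le_of_mul_le_mul_left e1 e3

theorem SuppFn.outer {h : ℝ → ℝ} (hh : SuppFn h) {P : E2} {φ α : ℝ} (h0 : 0 < α) (h1 : α < π / 2)
    (hp : dt P (φ + α) = h (φ + α)) (hm : dt P (φ - α) = h (φ - α)) {ψ : ℝ}
    (h2 : φ + α ≤ ψ) (h3 : ψ ≤ φ - α + 2 * π) : dt P ψ ≤ h ψ := by
  rcases lt_trichotomy ψ (φ - α + π) with h4 | h4 | h4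
  · have e1 := hh.rel (φ - α) (φ + α) ψ (by linarith) h2 (by linarith)
    have e2 := dt_rel P (φ - α) (φ + α) ψ
    rw [hp, hm] at e2
    rw [e2] at e1
    have e3 : 0 < sin (φ + α - (φ - α)) := sin_pos_of_pos_of_lt_pi (by linarith) (by linarith)
    have e4 : sin (φ + α - (φ - α)) * dt P ψ ≤ sin (φ + α - (φ - α)) * h ψ := by linarith
    exact le_of_mul_le_mul_left e4 e3
  · have e1 := hh.opp (φ - α)
    rw [h4, dt_add_pi, hm]
    linarith
  · rcases le_or_gt ψ (φ + α + π) with h5 | h5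
    · have e1 := hh.inner h0 h1 hp hm (ψ := ψ - π) (by linarith) (by linarith)
      rw [dt_sub_pi] at e1
      have e2 := hh.opp (ψ - π)
      rw [sub_add_cancel] at e2
      linarith
    · have e1 := hh.rel (ψ - 2 * π) (φ - α) (φ + α) (by linarith) (by linarith) (by linarith)
      have e2 := dt_rel P (ψ - 2 * π) (φ - α) (φ + α)
      rw [hp, hm] at e2
      rw [e2] at e1
      have e5 : dt P (ψ - 2 * π) = dt P ψ := by
        rw [← dt_add_two_pi, sub_add_cancel]
      have e6 : h (ψ - 2 * π) = h ψ := by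
        rw [← hh.periodic, sub_add_cancel]
      rw [e5, e6] at e1
      have e3 : 0 < sin (φ + α - (φ - α)) := sin_pos_of_pos_of_lt_pi (by linarith) (by linarith)
      have e4 : sin (φ + α - (φ - α)) * dt P ψ ≤ sin (φ + α - (φ - α)) * h ψ := by linarith
      exact le_of_mul_le_mul_left e4 e3

/-- the point on the two support lines with normals `φ ± α` -/
noncomputable def vtx (h : ℝ → ℝ) (φ α : ℝ) : E2 :=
  !₂[(h (φ + α) + h (φ - α)) / (2 * cos α) * cos φ - (h (φ + α) - h (φ - α)) / (2 * sin α) * sin φ,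
    (h (φ + α) + h (φ - α)) / (2 * cos α) * sin φ + (h (φ + α) - h (φ - α)) / (2 * sin α) * cos φ]

theorem dt_vtx (h : ℝ → ℝ) (φ α ψ : ℝ) : dt (vtx h φ α) ψ =
    (h (φ + α) + h (φ - α)) / (2 * cos α) * cos (ψ - φ) +
      (h (φ + α) - h (φ - α)) / (2 * sin α) * sin (ψ - φ) := by
  simp only [dt, vtx, cos_sub, sin_sub]
  simp
  ring

theorem dt_vtx_plus (h : ℝ → ℝ) {φ α : ℝ} (h0 : 0 < α) (h1 : α < π / 2) :
    dt (vtx h φ α) (φ + α) = h (φ + α) := by
  have hs : sin α ≠ 0 := (sin_pos_of_pos_of_lt_pi h0 (by linarith)).ne'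
  have hco : cos α ≠ 0 := (cos_pos_of_mem_Ioo ⟨by linarith, h1⟩).ne'
  rw [dt_vtx, add_sub_cancel_left]
  field_simp
  ring

theorem dt_vtx_minus (h : ℝ → ℝ) {φ α : ℝ} (h0 : 0 < α) (h1 : α < π / 2) :
    dt (vtx h φ α) (φ - α) = h (φ - α) := by
  have hs : sin α ≠ 0 := (sin_pos_of_pos_of_lt_pi h0 (by linarith)).ne'
  have hco : cos α ≠ 0 := (cos_pos_of_mem_Ioo ⟨by linarith, h1⟩).ne'
  rw [dt_vtx, show φ - α - φ = -α by ring, cos_neg, sin_neg]
  field_simp
  ring

theorem eq_of_dt {x y : E2} {a b : ℝ} (ha : dt x a = dt y a) (hb : dt x b = dt y b)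
    (hs : sin (b - a) ≠ 0) : x = y := by
  have key : ∀ ψ, dt x ψ = dt y ψ := by
    intro ψ
    have e1 := dt_rel x a ψ b
    have e2 := dt_rel y a ψ b
    rw [ha, hb, ← e2] at e1
    exact mul_left_cancel₀ hs e1
  ext i
  fin_cases i
  · have := key 0
    simpa [dt] using this
  · have := key (π / 2)
    simpa [dt] using this

theorem norm_of_dt {v : E2} {a b : ℝ} (ha : dt v a = 0) : ‖v‖ * |sin (b - a)| = |dt v b| := by
  have e1 : (‖v‖ * |sin (b - a)|) ^ 2 = |dt v b| ^ 2 := by
    rw [mul_pow, sq_abs, sq_abs, norm_sq]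
    have h1 := sin_sq_add_cos_sq a
    have h2 := sin_sq_add_cos_sq b
    have key : (v 0 ^ 2 + v 1 ^ 2) * sin (b - a) ^ 2 =
        dt v b ^ 2 + dt v a ^ 2 - 2 * cos (b - a) * dt v a * dt v b := by
      simp only [dt, sin_sub, cos_sub]
      have s1 : sin a ^ 2 = 1 - cos a ^ 2 := by linarith
      have s2 : sin b ^ 2 = 1 - cos b ^ 2 := by linarith
      ring_nf
      simp only [s1, s2]
      ring
    rw [key, ha]
    ring
  exact (pow_left_inj₀ (by positivity) (by positivity) two_ne_zero).mp e1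

end Pool.Agent.H843R3.Str
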