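import Pool.Agent.H843R3.Str.Perim

set_option autoImplicit false

/-!
# Circumscribed polygons with equally spaced normals
-/

open MeasureTheory Set Real Metric
open scoped Pointwise ENNReal

namespace Pool.Agent.H843R3.Str

/-- mesh -/
noncomputable def del (N : ℕ) : ℝ := 2 * π / N

/-- circumscribed polygon -/
def KN (h : ℝ → ℝ) (N : ℕ) : Set E2 := {x | ∀ i : ℕ, i < N → dt x (i * del N) ≤ h (i * del N)}

/-- vertices of the polygon -/
noncomputable def wv (h : ℝ → ℝ) (N : ℕ) (i : ℤ) : E2 := vtx h ((i + 1 / 2) * del N) (del N / 2)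

theorem periodic_int {h : ℝ → ℝ} (hp : ∀ φ, h (φ + 2 * π) = h φ) (k : ℤ) (φ : ℝ) :
    h (φ + k * (2 * π)) = h φ := by
  have : Function.Periodic h (2 * π) := hp
  exact this.int_mul k φ

variable {h : ℝ → ℝ} {N : ℕ}

theorem mul_del (hN : 5 ≤ N) : (N : ℝ) * del N = 2 * π := by
  unfold del
  have : (N : ℝ) ≠ 0 := by positivity
  field_simp

theorem del_pos (hN : 5 ≤ N) : 0 < del N := by
  unfold del
  have : (0 : ℝ) < N := by exact_mod_cast (by omega : 0 < N)
  positivity

theorem del_lt (hN : 5 ≤ N) : del N < π / 2 := by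
  unfold del
  have h5 : (5 : ℝ) ≤ N := by exact_mod_cast hN
  rw [div_lt_div_iff₀ (by linarith) (by norm_num)]
  nlinarith [pi_pos]

theorem sin_del_pos (hN : 5 ≤ N) : 0 < sin (del N) :=
  sin_pos_of_pos_of_lt_pi (del_pos hN) (by linarith [del_lt hN, pi_pos])

theorem int_red (hN : 5 ≤ N) (j : ℤ) : ∃ i : ℕ, i < N ∧ ∃ k : ℤ,
    (j : ℝ) * del N = (i : ℝ) * del N + k * (2 * π) := by
  have hN' : (0 : ℤ) < N := by omega
  refine ⟨(j % N).toNat, ?_, j / N, ?_⟩
  · have h1 := Int.emod_lt_of_pos j hN'
    have h2 := Int.emod_nonneg j hN'.ne'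
    omega
  · have h2 := Int.emod_nonneg j hN'.ne'
    have h3 : (((j % N).toNat : ℕ) : ℝ) = ((j % N : ℤ) : ℝ) := by
      have : (((j % N).toNat : ℕ) : ℤ) = j % N := Int.toNat_of_nonneg h2
      exact_mod_cast this
    rw [h3, ← mul_del hN]
    have h4 := Int.emod_add_mul_ediv j N
    have h5 : (j : ℝ) = ((j % N : ℤ) : ℝ) + (N : ℝ) * ((j / N : ℤ) : ℝ) := by
      exact_mod_cast h4.symm
    rw [h5]
    push_cast
    have h6 : (((j % N : ℤ) : ℝ) + (N : ℝ) * ((j / N : ℤ) : ℝ)) * del N =
      ((j % N : ℤ) : ℝ) * del N + ((j / N : ℤ) : ℝ) * ((N : ℝ) * del N) := by ring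
    convert h6 using 2

theorem KN_int (hh : SuppFn h) (hN : 5 ≤ N) {x : E2} (hx : x ∈ KN h N) (j : ℤ) :
    dt x (j * del N) ≤ h (j * del N) := by
  obtain ⟨i, hi, k, hk⟩ := int_red hN j
  rw [hk, periodic_int hh.periodic, periodic_int (dt_add_two_pi x)]
  exact hx i hi

theorem wv_left (hN : 5 ≤ N) (i : ℤ) : dt (wv h N i) (i * del N) = h (i * del N) := by
  have h1 := dt_vtx_minus h (φ := (i + 1 / 2) * del N) (α := del N / 2)
    (by linarith [del_pos hN]) (by linarith [del_lt hN, pi_pos])
  have h2 : ((i : ℝ) + 1 / 2) * del N - del N / 2 = i * del N := by ring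
  rw [h2] at h1
  exact h1

theorem wv_right (hN : 5 ≤ N) (i : ℤ) :
    dt (wv h N i) ((i + 1) * del N) = h ((i + 1) * del N) := by
  have h1 := dt_vtx_plus h (φ := (i + 1 / 2) * del N) (α := del N / 2)
    (by linarith [del_pos hN]) (by linarith [del_lt hN, pi_pos])
  have h2 : ((i : ℝ) + 1 / 2) * del N + del N / 2 = (i + 1) * del N := by ring
  rw [h2] at h1
  exact h1

theorem wv_mem (hh : SuppFn h) (hN : 5 ≤ N) (i : ℤ) : wv h N i ∈ KN h N := by
  intro j _
  have hN' : (0 : ℤ) < N := by omega
  set d : ℤ := j - (i + 1) with hd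
  have r1 := Int.emod_lt_of_pos d hN'
  have r2 := Int.emod_nonneg d hN'.ne'
  have r3 := Int.emod_add_mul_ediv d N
  have hδ := del_pos hN
  -- the representative
  have e1 : (((i + 1 + d % N : ℤ)) : ℝ) * del N + ((d / N : ℤ) : ℝ) * (2 * π) = (j : ℝ) * del N := by
    rw [← mul_del hN]
    have : (j : ℝ) = ((i + 1 + d % N : ℤ) : ℝ) + (N : ℝ) * ((d / N : ℤ) : ℝ) := by
      have : (j : ℤ) = (i + 1 + d % N) + N * (d / N) := by omega
      exact_mod_cast this
    rw [this]
    ring
  rw [← e1, periodic_int hh.periodic, periodic_int (dt_add_two_pi _)]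
  apply hh.outer (φ := (i + 1 / 2) * del N) (α := del N / 2)
    (by linarith) (by linarith [del_lt hN, pi_pos])
    (dt_vtx_plus h (by linarith) (by linarith [del_lt hN, pi_pos]))
    (dt_vtx_minus h (by linarith) (by linarith [del_lt hN, pi_pos]))
  · have : ((i : ℝ) + 1) ≤ ((i + 1 + d % N : ℤ) : ℝ) := by
      have : i + 1 ≤ i + 1 + d % N := by omega
      exact_mod_cast this
    nlinarith
  · have : ((i + 1 + d % N : ℤ) : ℝ) ≤ i + N := by
      have : i + 1 + d % N ≤ i + N := by omega
      exact_mod_cast this
    have h2 := mul_del hN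
    nlinarith

/-- edges -/
def edge (h : ℝ → ℝ) (N : ℕ) (i : ℤ) : Set E2 :=
  {x | x ∈ KN h N ∧ dt x (i * del N) = h (i * del N)}

theorem convex_KN (h : ℝ → ℝ) (N : ℕ) : Convex ℝ (KN h N) := by
  intro a ha b hb s t hs ht hst i hi
  rw [dt_add, dt_smul, dt_smul]
  have h1 := mul_le_mul_of_nonneg_left (ha i hi) hs
  have h2 := mul_le_mul_of_nonneg_left (hb i hi) ht
  have h3 : s * h (i * del N) + t * h (i * del N) = h (i * del N) := by
    rw [← add_mul, hst, one_mul]
  linarith

theorem convex_edge (h : ℝ → ℝ) (N : ℕ) (i : ℤ) : Convex ℝ (edge h N i) := by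
  intro a ha b hb s t hs ht hst
  refine ⟨convex_KN h N ha.1 hb.1 hs ht hst, ?_⟩
  rw [dt_add, dt_smul, dt_smul, ha.2, hb.2, ← add_mul, hst, one_mul]

theorem isClosed_KN (h : ℝ → ℝ) (N : ℕ) : IsClosed (KN h N) := by
  have : KN h N = ⋂ i : ℕ, ⋂ _ : i < N, {x | dt x (i * del N) ≤ h (i * del N)} := by
    ext x
    simp [KN]
  rw [this]
  exact isClosed_iInter fun i => isClosed_iInter fun _ =>
    isClosed_le (continuous_dt_left _) continuous_const

/-- the length of an edge times `sin δ` -/
noncomputable def DD (h : ℝ → ℝ) (N : ℕ) (i : ℤ) : ℝ :=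
  h ((i + 1) * del N) + h ((i - 1) * del N) - 2 * cos (del N) * h (i * del N)

theorem three_term (x : E2) (i : ℤ) (hN : 5 ≤ N) :
    dt x ((i + 1) * del N) + dt x ((i - 1) * del N) = 2 * cos (del N) * dt x (i * del N) := by
  have e := dt_rel x ((i - 1) * del N) (i * del N) ((i + 1) * del N)
  have e1 : ((i : ℝ) + 1) * del N - (i - 1) * del N = 2 * del N := by ring
  have e2 : ((i : ℝ) + 1) * del N - i * del N = del N := by ring
  have e3 : (i : ℝ) * del N - (i - 1) * del N = del N := by ring
  rw [e1, e2, e3, sin_two_mul] at e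
  have hs := (sin_del_pos hN).ne'
  have : sin (del N) * (dt x ((i + 1) * del N) + dt x ((i - 1) * del N)) =
      sin (del N) * (2 * cos (del N) * dt x (i * del N)) := by linarith
  exact mul_left_cancel₀ hs this

theorem wv_left' (hN : 5 ≤ N) (i : ℤ) : dt (wv h N (i - 1)) ((i - 1) * del N) = h ((i - 1) * del N) := by
  have := wv_left (h := h) hN (i - 1)
  push_cast at this
  exact this

theorem wv_right' (hN : 5 ≤ N) (i : ℤ) : dt (wv h N (i - 1)) (i * del N) = h (i * del N) := by
  have := wv_right (h := h) hN (i - 1)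
  push_cast at this
  rw [sub_add_cancel] at this
  exact this

theorem DD_nonneg (hh : SuppFn h) (hN : 5 ≤ N) (i : ℤ) : 0 ≤ DD h N i := by
  have e1 := three_term (wv h N i) i hN
  rw [wv_left hN, wv_right hN] at e1
  have e2 := KN_int hh hN (wv_mem hh hN i) (i - 1)
  push_cast at e2
  unfold DD
  linarith

theorem dist_wv (hh : SuppFn h) (hN : 5 ≤ N) (i : ℤ) :
    dist (wv h N (i - 1)) (wv h N i) = DD h N i / sin (del N) := by
  have hs := sin_del_pos hN
  rw [dist_comm, dist_eq_norm]
  have e1 : dt (wv h N i - wv h N (i - 1)) (i * del N) = 0 := by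
    rw [dt_sub, wv_left hN, wv_right' hN, sub_self]
  have e2 := norm_of_dt (b := (i + 1) * del N) e1
  have e3 : ((i : ℝ) + 1) * del N - i * del N = del N := by ring
  rw [e3, abs_of_pos hs, dt_sub, wv_right hN] at e2
  have e4 := three_term (wv h N (i - 1)) i hN
  rw [wv_left' hN, wv_right' hN] at e4
  have e5 : h ((i + 1) * del N) - dt (wv h N (i - 1)) ((i + 1) * del N) = DD h N i := by
    unfold DD
    linarith
  rw [e5, abs_of_nonneg (DD_nonneg hh hN i)] at e2
  rw [eq_div_iff hs.ne', e2]

theorem edge_eq (hh : SuppFn h) (hN : 5 ≤ N) (i : ℤ) :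
    edge h N i = segment ℝ (wv h N (i - 1)) (wv h N i) := by
  have hs := sin_del_pos hN
  apply Subset.antisymm
  · rintro x ⟨hx1, hx2⟩
    have f1 := three_term x i hN
    have f2 := KN_int hh hN hx1 (i - 1)
    have f3 := KN_int hh hN hx1 (i + 1)
    push_cast at f2 f3
    rw [hx2] at f1
    have e4 := three_term (wv h N (i - 1)) i hN
    rw [wv_left' hN, wv_right' hN] at e4
    have hsub : ((i : ℝ) + 1) * del N - i * del N = del N := by ring
    rcases eq_or_lt_of_le (DD_nonneg hh hN i) with h0 | h0
    · have : x = wv h N i := by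
        apply eq_of_dt (a := i * del N) (b := (i + 1) * del N)
        · rw [hx2, wv_left hN]
        · rw [wv_right hN]
          unfold DD at h0
          linarith
        · rw [hsub]; exact hs.ne'
      rw [this]
      exact right_mem_segment ℝ _ _
    · rw [segment_eq_image']
      set t : ℝ := 1 - (h ((i + 1) * del N) - dt x ((i + 1) * del N)) / DD h N i with ht
      have ht1 : (h ((i + 1) * del N) - dt x ((i + 1) * del N)) / DD h N i ≤ 1 := by
        rw [div_le_one h0]
        unfold DD
        linarith
      have ht2 : 0 ≤ (h ((i + 1) * del N) - dt x ((i + 1) * del N)) / DD h N i :=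
        div_nonneg (by linarith) h0.le
      refine ⟨t, ⟨by linarith, by linarith⟩, ?_⟩
      apply eq_of_dt (a := i * del N) (b := (i + 1) * del N)
      · simp only
        rw [dt_add, dt_smul, dt_sub, wv_left hN, wv_right' hN, hx2]
        ring
      · simp only
        rw [dt_add, dt_smul, dt_sub, wv_right hN]
        have e5 : h ((i + 1) * del N) - dt (wv h N (i - 1)) ((i + 1) * del N) = DD h N i := by
          unfold DD
          linarith
        rw [e5, ht, sub_mul, div_mul_cancel₀ _ h0.ne']
        linarith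
      · rw [hsub]; exact hs.ne'
  · apply (convex_edge h N i).segment_subset
    · exact ⟨wv_mem hh hN _, wv_right' hN i⟩
    · exact ⟨wv_mem hh hN _, wv_left hN i⟩

theorem frontier_KN (hN : 5 ≤ N) :
    frontier (KN h N) = ⋃ i ∈ Finset.range N, edge h N (i : ℤ) := by
  ext x
  simp only [mem_iUnion, Finset.mem_range, exists_prop]
  constructor
  · intro hx
    have hxK : x ∈ KN h N := (isClosed_KN h N).frontier_subset hx
    by_contra hcon
    push Not at hcon
    have hlt : ∀ i : ℕ, i < N → dt x (i * del N) < h (i * del N) := by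
      intro i hi
      apply lt_of_le_of_ne (hxK i hi)
      intro he
      exact hcon i hi ⟨hxK, by exact_mod_cast he⟩
    have hop : IsOpen {x : E2 | ∀ i ∈ Finset.range N, dt x (i * del N) < h (i * del N)} := by
      have : {x : E2 | ∀ i ∈ Finset.range N, dt x (i * del N) < h (i * del N)} =
          ⋂ i ∈ Finset.range N, {x : E2 | dt x (i * del N) < h (i * del N)} := by
        ext x; simp
      rw [this]
      exact isOpen_biInter_finset fun i _ => isOpen_lt (continuous_dt_left _) continuous_const
    have hsub : {x : E2 | ∀ i ∈ Finset.range N, dt x (i * del N) < h (i * del N)} ⊆ KN h N :=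
      fun y hy i hi => (hy i (Finset.mem_range.mpr hi)).le
    have : x ∈ interior (KN h N) :=
      interior_maximal hsub hop (fun i hi => hlt i (Finset.mem_range.mp hi))
    exact hx.2 this
  · rintro ⟨i, hi, hx1, hx2⟩
    refine ⟨subset_closure hx1, fun hint => ?_⟩
    set n : E2 := !₂[cos (i * del N), sin (i * del N)] with hn
    have hdn : dt n (i * del N) = 1 := by
      simp only [dt, hn]
      simp
      have := sin_sq_add_cos_sq ((i : ℝ) * del N)
      nlinarith
    have hcont : Continuous (fun t : ℝ => x + t • n) := by fun_prop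
    have h1 : ∀ᶠ t in nhds (0:ℝ), x + t • n ∈ KN h N := by
      have h0 : (fun t : ℝ => x + t • n) 0 = x := by simp
      have := hcont.continuousAt.preimage_mem_nhds
        (by rw [h0]; exact mem_interior_iff_mem_nhds.mp hint : KN h N ∈ nhds ((fun t : ℝ => x + t • n) 0))
      exact this
    have h2 : ∀ᶠ t in nhdsWithin (0:ℝ) (Ioi 0), x + t • n ∈ KN h N := h1.filter_mono nhdsWithin_le_nhds
    obtain ⟨t, ht1, ht2⟩ := (h2.and self_mem_nhdsWithin).exists
    have ht2' : 0 < t := ht2
    have h3 := ht1 i hi
    rw [dt_add, dt_smul, hdn] at h3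
    push_cast at hx2
    rw [hx2] at h3
    linarith

theorem measure_KN (hh : SuppFn h) (hpos : ∀ φ, 0 < h φ) (hN : 5 ≤ N) :
    (μH[1] : Measure E2) (frontier (KN h N)) =
      ENNReal.ofReal (∑ i ∈ Finset.range N, DD h N i / sin (del N)) := by
  have hs := sin_del_pos hN
  rw [frontier_KN hN, measure_biUnion_finset₀]
  · rw [ENNReal.ofReal_sum_of_nonneg]
    · apply Finset.sum_congr rfl
      intro i _
      rw [edge_eq hh hN, hausdorffMeasure_segment, edist_dist, dist_wv hh hN]
    · intro i _
      exact div_nonneg (DD_nonneg hh hN i) hs.le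
  · intro i hi j hj hij
    have hi' : i < N := by simpa using hi
    have hj' : j < N := by simpa using hj
    show (μH[1] : Measure E2) (edge h N i ∩ edge h N j) = 0
    haveI : NullSingletonClass (μH[1] : Measure E2) :=
      Measure.nullSingletonClass_hausdorff E2 (by norm_num)
    have hsin : (edge h N i ∩ edge h N j).Subsingleton := by
      intro x hx y hy
      by_cases hsn : sin ((j : ℝ) * del N - i * del N) = 0
      · exfalso
        obtain ⟨k, hk⟩ := sin_eq_zero_iff.mp hsn
        have hd := del_pos hN
        have hm := mul_del hN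
        have hij' : (i : ℝ) ≠ j := by exact_mod_cast hij
        have b1 : (j : ℝ) * del N - i * del N < 2 * π := by
          have : (j : ℝ) < N := by exact_mod_cast hj'
          have h0 : (0:ℝ) ≤ i := by positivity
          nlinarith
        have b2 : -(2 * π) < (j : ℝ) * del N - i * del N := by
          have : (i : ℝ) < N := by exact_mod_cast hi'
          have h0 : (0:ℝ) ≤ j := by positivity
          nlinarith
        rw [← hk] at b1 b2
        have k1 : k < 2 := by
          have : (k : ℝ) < 2 := by
            have := pi_pos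
            by_contra hc
            push Not at hc
            nlinarith
          exact_mod_cast this
        have k2 : -2 < k := by
          have : (-2 : ℝ) < k := by
            have := pi_pos
            by_contra hc
            push Not at hc
            nlinarith
          exact_mod_cast this
        have k0 : k ≠ 0 := by
          rintro rfl
          rw [Int.cast_zero, zero_mul] at hk
          have : ((j : ℝ) - i) * del N = 0 := by linarith
          rcases mul_eq_zero.mp this with h1 | h1
          · exact hij' (by linarith)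
          · exact hd.ne' h1
        have hx1 : dt x (i * del N) = h (i * del N) := by exact_mod_cast hx.1.2
        have hx2 : dt x (j * del N) = h (j * del N) := by exact_mod_cast hx.2.2
        have p1 := hpos (i * del N)
        have p2 := hpos (j * del N)
        have : k = 1 ∨ k = -1 := by omega
        rcases this with rfl | rfl
        · have : (j : ℝ) * del N = i * del N + π := by push_cast at hk; linarith
          rw [this, dt_add_pi, hx1, ← this] at hx2
          linarith
        · have : (j : ℝ) * del N = i * del N - π := by push_cast at hk; linarith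
          rw [this, dt_sub_pi, hx1, ← this] at hx2
          linarith
      · have a1 : dt x (i * del N) = h (i * del N) := by exact_mod_cast hx.1.2
        have a2 : dt x (j * del N) = h (j * del N) := by exact_mod_cast hx.2.2
        have a3 : dt y (i * del N) = h (i * del N) := by exact_mod_cast hy.1.2
        have a4 : dt y (j * del N) = h (j * del N) := by exact_mod_cast hy.2.2
        exact eq_of_dt (a1.trans a3.symm) (a2.trans a4.symm) hsn
    exact hsin.measure_zero _
  · intro i _
    rw [edge_eq hh hN]
    apply MeasurableSet.nullMeasurableSet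
    rw [segment_eq_image']
    exact ((isCompact_Icc (a := (0:ℝ)) (b := 1)).image (by fun_prop)).isClosed.measurableSet

theorem sum_DD (hper : ∀ φ, h (φ + 2 * π) = h φ) (hN : 5 ≤ N) :
    ∑ i ∈ Finset.range N, DD h N i = (2 - 2 * cos (del N)) * ∑ i ∈ Finset.range N, h (i * del N) := by
  have h1 : ∑ i ∈ Finset.range N, h (((i : ℝ) + 1) * del N) = ∑ i ∈ Finset.range N, h (i * del N) := by
    have a := Finset.sum_range_succ (fun i : ℕ => h (i * del N)) N
    have b := Finset.sum_range_succ' (fun i : ℕ => h (i * del N)) N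
    rw [a] at b
    simp only [Nat.cast_add, Nat.cast_one, Nat.cast_zero, zero_mul] at b
    rw [mul_del hN, ← zero_add (2 * π), hper] at b
    linarith
  have h2 : ∑ i ∈ Finset.range N, h (((i : ℝ) - 1) * del N) = ∑ i ∈ Finset.range N, h (i * del N) := by
    have a := Finset.sum_range_succ (fun i : ℕ => h (((i : ℝ) - 1) * del N)) N
    have b := Finset.sum_range_succ' (fun i : ℕ => h (((i : ℝ) - 1) * del N)) N
    rw [a] at b
    simp only [Nat.cast_add, Nat.cast_one, Nat.cast_zero, add_sub_cancel_right] at b
    have c : h (((N : ℝ) - 1) * del N) = h ((0 - 1) * del N) := by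
      rw [show ((N : ℝ) - 1) * del N = (0 - 1) * del N + 2 * π by rw [← mul_del hN]; ring, hper]
    rw [c] at b
    linarith
  have h3 : ∀ i : ℕ, DD h N i = h (((i : ℝ) + 1) * del N) + h (((i : ℝ) - 1) * del N)
      - 2 * cos (del N) * h (i * del N) := fun i => by simp [DD]
  simp only [h3]
  rw [Finset.sum_sub_distrib, Finset.sum_add_distrib, h1, h2, ← Finset.mul_sum]
  ring

end Pool.Agent.H843R3.Str
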