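import Pool.Agent.H843R3.Str.Asym

set_option autoImplicit false

/-!
# The two relations between a body and its string constructions
-/

open MeasureTheory Set Real Metric Filter
open scoped Pointwise ENNReal Topology

namespace Pool.Agent.H843R3.Str

theorem eq_zero_of_le_div {x K n0 : ℝ} (h : ∀ n : ℝ, n0 ≤ n → |x| ≤ K / n) : x = 0 := by
  have h1 : Tendsto (fun n : ℝ => K / n) atTop (𝓝 0) := tendsto_const_nhds.div_atTop tendsto_id
  have h2 : |x| ≤ 0 := ge_of_tendsto h1 (by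
    filter_upwards [eventually_ge_atTop n0] with n hn using h n hn)
  exact abs_eq_zero.mp (le_antisymm h2 (abs_nonneg x))

theorem H0_le {h : ℝ → ℝ} (hc : Continuous h) {M : ℝ} (hle : ∀ φ, h φ ≤ M) (φ : ℝ) :
    H0 h φ ≤ π * M := by
  unfold H0
  calc ∫ ψ in (φ + π / 2)..(φ + 3 * π / 2), h ψ ≤ ∫ _ψ in (φ + π / 2)..(φ + 3 * π / 2), M := by
        apply intervalIntegral.integral_mono_on (by linarith [pi_pos])
          (hc.intervalIntegrable _ _) (by simp)
        intro x _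
        exact hle x
    _ = π * M := by
        rw [intervalIntegral.integral_const, smul_eq_mul]
        ring

theorem hasDerivAt_H0 {h : ℝ → ℝ} (hc : Continuous h) (φ : ℝ) :
    HasDerivAt (H0 h) (h (φ + 3 * π / 2) - h (φ + π / 2)) φ := by
  have h1 : H0 h = fun φ => (∫ ψ in (0:ℝ)..(φ + 3 * π / 2), h ψ) - ∫ ψ in (0:ℝ)..(φ + π / 2), h ψ := by
    funext φ
    unfold H0
    rw [intervalIntegral.integral_interval_sub_left] <;> exact hc.intervalIntegrable _ _
  rw [h1]
  have d1 : HasDerivAt (fun φ : ℝ => ∫ ψ in (0:ℝ)..(φ + 3 * π / 2), h ψ) (h (φ + 3 * π / 2)) φ := by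
    have a := (hc.integral_hasStrictDerivAt 0 (φ + 3 * π / 2)).hasDerivAt
    have b : HasDerivAt (fun φ : ℝ => φ + 3 * π / 2) 1 φ := (hasDerivAt_id φ).add_const _
    have c := a.comp φ b
    rw [mul_one] at c
    exact c
  have d2 : HasDerivAt (fun φ : ℝ => ∫ ψ in (0:ℝ)..(φ + π / 2), h ψ) (h (φ + π / 2)) φ := by
    have a := (hc.integral_hasStrictDerivAt 0 (φ + π / 2)).hasDerivAt
    have b : HasDerivAt (fun φ : ℝ => φ + π / 2) 1 φ := (hasDerivAt_id φ).add_const _
    have c := a.comp φ b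
    rw [mul_one] at c
    exact c
  exact d1.sub d2

section

variable {h g : ℝ → ℝ} {M : ℝ}

set_option maxHeartbeats 2000000

/-- quarter sum -/
noncomputable def qs (h : ℝ → ℝ) (θ : ℝ) : ℝ := h (θ + π / 2) ^ 2 + h (θ - π / 2) ^ 2

theorem rel_core (hp : ∀ φ, h (φ + 2 * π) = h φ) (hpos : ∀ φ, 0 ≤ h φ)
    (gp : ∀ φ, g (φ + 2 * π) = g φ) (gpos : ∀ φ, 0 ≤ g φ) (hM : 1 ≤ M)
    (hlip : ∀ φ ψ, |h φ - h ψ| ≤ M * |φ - ψ|) (hle : ∀ φ, h φ ≤ M)
    (glip : ∀ φ ψ, |g φ - g ψ| ≤ M * |φ - ψ|) (gle : ∀ φ, g φ ≤ M)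
    (H : ∀ ℓ2, ∫ φ in (0:ℝ)..(2 * π), g φ < ℓ2 → ∃ ℓ3, ∀ z, Lam g z = ℓ2 ↔ Lam h z = ℓ3)
    (θ θ' : ℝ) :
    H0 g θ - H0 h θ = H0 g θ' - H0 h θ' ∧ qs g θ - qs h θ = qs g θ' - qs h θ' := by
  have hc := continuous_of_lip hlip
  have gc := continuous_of_lip glip
  set C := 2 * (π ^ 2 * M ^ 3 + π ^ 4 * M ^ 4) with hC
  have hC0 : 0 ≤ C := by positivity
  set n0 := 2 * π * M with hn0
  have hn01 : 1 ≤ n0 := by nlinarith [pi_gt_three]
  -- the points
  have key : ∀ n : ℝ, n0 ≤ n → ∃ r r' : ℝ, n ≤ r ∧ n ≤ r' ∧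
      Lam g (r • nn θ) = Lam g (r' • nn θ') ∧ Lam h (r • nn θ) = Lam h (r' • nn θ') := by
    intro n hn
    have hn1 : 0 < n := by linarith
    set ℓ2 := (∫ φ in (0:ℝ)..(2 * π), g φ) + 2 * π * n with hℓ2
    have hlt : ∫ φ in (0:ℝ)..(2 * π), g φ < ℓ2 := by
      have : 0 < 2 * π * n := by positivity
      linarith
    obtain ⟨r, _, hr2, _, hr4⟩ := exists_level gc gp gpos θ hlt.le
    obtain ⟨r', _, hr2', _, hr4'⟩ := exists_level gc gp gpos θ' hlt.le
    obtain ⟨ℓ3, hℓ3⟩ := H ℓ2 hlt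
    have e : (ℓ2 - ∫ φ in (0:ℝ)..(2 * π), g φ) / (2 * π) = n := by
      rw [hℓ2, add_sub_cancel_left]
      field_simp
    rw [e] at hr2 hr2'
    exact ⟨r, r', hr2, hr2', hr4.trans hr4'.symm,
      ((hℓ3 _).mp hr4).trans ((hℓ3 _).mp hr4').symm⟩
  have asg := fun r (hr : n0 ≤ r) θ => Lam_asym gp gpos hM glip gle hr θ
  have ash := fun r (hr : n0 ≤ r) θ => Lam_asym hp hpos hM hlip hle hr θ
  set a : ℝ → ℝ := fun θ => (qs g θ - qs h θ) / 2 with ha
  set D : ℝ → ℝ := fun θ => H0 g θ - H0 h θ with hD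
  have diff : ∀ r, n0 ≤ r → ∀ θ, |Lam g (r • nn θ) - Lam h (r • nn θ) - (D θ + a θ / r)| ≤
      2 * C / r ^ 2 := by
    intro r hr θ
    have hr0 : 0 < r := by linarith
    have b1 := abs_le.mp (asg r hr θ)
    have b2 := abs_le.mp (ash r hr θ)
    have e1 : a θ / r = (g (θ + π / 2) ^ 2 + g (θ - π / 2) ^ 2) / (2 * r) -
        (h (θ + π / 2) ^ 2 + h (θ - π / 2) ^ 2) / (2 * r) := by
      simp only [ha, qs]
      field_simp
    have e2 : 2 * C / r ^ 2 = C / r ^ 2 + C / r ^ 2 := by ring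
    rw [abs_le, e1, e2]
    simp only [hD]
    constructor <;> linarith [b1.1, b1.2, b2.1, b2.2]
  have hDeq : D θ = D θ' := by
    have : D θ - D θ' = 0 := by
      apply eq_zero_of_le_div (K := |a θ| + |a θ'| + 4 * C) (n0 := n0)
      intro n hn
      have hn1 : 0 < n := by linarith
      obtain ⟨r, r', hr, hr', e1, e2⟩ := key n hn
      have hr0 : 0 < r := by linarith
      have hr0' : 0 < r' := by linarith
      have b1 := abs_le.mp (diff r (hn.trans hr) θ)
      have b2 := abs_le.mp (diff r' (hn.trans hr') θ')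
      rw [e1, e2] at b1
      have c1 : |a θ / r| ≤ |a θ| / n := by
        rw [abs_div, abs_of_pos hr0]
        gcongr
      have c2 : |a θ' / r'| ≤ |a θ'| / n := by
        rw [abs_div, abs_of_pos hr0']
        gcongr
      have c3 : 2 * C / r ^ 2 ≤ 2 * C / n := by
        apply div_le_div_of_nonneg_left (by positivity) hn1
        nlinarith
      have c4 : 2 * C / r' ^ 2 ≤ 2 * C / n := by
        apply div_le_div_of_nonneg_left (by positivity) hn1
        nlinarith
      have c1' := abs_le.mp c1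
      have c2' := abs_le.mp c2
      rw [add_div, add_div, show 4 * C / n = 2 * C / n + 2 * C / n by ring, abs_le]
      constructor <;> linarith [b1.1, b1.2, b2.1, b2.2, c1'.1, c1'.2, c2'.1, c2'.2]
    linarith
  refine ⟨hDeq, ?_⟩
  have haeq : a θ - a θ' = 0 := by
    set B := π * M + M ^ 2 + C with hB
    have hB0 : 0 ≤ B := by positivity
    apply eq_zero_of_le_div (K := |a θ'| * B + 2 * C + 2 * C * (1 + B)) (n0 := n0)
    intro n hn
    have hn1 : 0 < n := by linarith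
    obtain ⟨r, r', hr, hr', e1, e2⟩ := key n hn
    have hr0 : 0 < r := by linarith
    have hr0' : 0 < r' := by linarith
    have hr1 : 1 ≤ r := by linarith
    have hr1' : 1 ≤ r' := by linarith
    -- the radii are close
    have hclose : |r - r'| ≤ B := by
      have b1 := abs_le.mp (asg r (hn.trans hr) θ)
      have b2 := abs_le.mp (asg r' (hn.trans hr') θ')
      rw [e1] at b1
      have g1 := H0_nonneg gpos θ
      have g2 := H0_nonneg gpos θ'
      have g3 := H0_le gc gle θ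
      have g4 := H0_le gc gle θ'
      have sq : ∀ φ, g φ ^ 2 ≤ M ^ 2 := fun φ => pow_le_pow_left₀ (gpos φ) (gle φ) 2
      have q1 : (g (θ + π / 2) ^ 2 + g (θ - π / 2) ^ 2) / (2 * r) ≤ M ^ 2 := by
        rw [div_le_iff₀ (by positivity)]
        have := sq (θ + π / 2)
        have := sq (θ - π / 2)
        nlinarith [sq_nonneg M]
      have q2 : (g (θ' + π / 2) ^ 2 + g (θ' - π / 2) ^ 2) / (2 * r') ≤ M ^ 2 := by
        rw [div_le_iff₀ (by positivity)]
        have := sq (θ' + π / 2)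
        have := sq (θ' - π / 2)
        nlinarith [sq_nonneg M]
      have q3 : 0 ≤ (g (θ + π / 2) ^ 2 + g (θ - π / 2) ^ 2) / (2 * r) := by positivity
      have q4 : 0 ≤ (g (θ' + π / 2) ^ 2 + g (θ' - π / 2) ^ 2) / (2 * r') := by positivity
      have q5 : C / r ^ 2 ≤ C := div_le_self hC0 (by nlinarith)
      have q6 : C / r' ^ 2 ≤ C := div_le_self hC0 (by nlinarith)
      rw [abs_le, hB]
      have : 0 ≤ M ^ 2 := by positivity
      have : 0 ≤ π * M := by positivity
      constructor <;> linarith [b1.1, b1.2, b2.1, b2.2]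
    have b1 := abs_le.mp (diff r (hn.trans hr) θ)
    have b2 := abs_le.mp (diff r' (hn.trans hr') θ')
    rw [e1, e2, hDeq] at b1
    set E := a θ / r - a θ' / r' with hE
    have hEb : |E| ≤ 2 * C / r ^ 2 + 2 * C / r' ^ 2 := by
      rw [abs_le]
      constructor <;> linarith [b1.1, b1.2, b2.1, b2.2]
    have e3 : a θ - a θ' = a θ' * ((r - r') / r') + r * E := by
      rw [hE]
      field_simp
      ring
    rw [e3]
    have f1 : |a θ' * ((r - r') / r')| ≤ |a θ'| * B / n := by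
      have f0 : |(r - r') / r'| ≤ B / n := by
        rw [abs_div, abs_of_pos hr0']
        gcongr
      rw [abs_mul, mul_div_assoc]
      exact mul_le_mul_of_nonneg_left f0 (abs_nonneg _)
    have f2 : r ≤ (1 + B) * r' := by
      have := (abs_le.mp hclose).2
      nlinarith
    have f3 : |r * E| ≤ 2 * C / n + 2 * C * (1 + B) / n := by
      rw [abs_mul, abs_of_pos hr0]
      calc r * |E| ≤ r * (2 * C / r ^ 2 + 2 * C / r' ^ 2) := by gcongr
        _ = 2 * C / r + 2 * C * r / r' ^ 2 := by field_simp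
        _ ≤ 2 * C / n + 2 * C * (1 + B) / n := by
          apply add_le_add
          · gcongr
          · calc 2 * C * r / r' ^ 2 ≤ 2 * C * ((1 + B) * r') / r' ^ 2 := by gcongr
              _ = 2 * C * (1 + B) / r' := by field_simp
              _ ≤ 2 * C * (1 + B) / n := by gcongr
    calc |a θ' * ((r - r') / r') + r * E| ≤ |a θ' * ((r - r') / r')| + |r * E| := abs_add_le _ _
      _ ≤ |a θ'| * B / n + (2 * C / n + 2 * C * (1 + B) / n) := add_le_add f1 f3
      _ = (|a θ'| * B + 2 * C + 2 * C * (1 + B)) / n := by ring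
  simp only [ha] at haeq
  linarith

theorem rel1 (hc : Continuous h) (gc : Continuous g)
    (H : ∀ θ θ', H0 g θ - H0 h θ = H0 g θ' - H0 h θ') (φ : ℝ) :
    g (φ + π) - h (φ + π) = g φ - h φ := by
  have d1 := (hasDerivAt_H0 gc (φ - π / 2)).sub (hasDerivAt_H0 hc (φ - π / 2))
  have d2 : HasDerivAt (H0 g - H0 h) 0 (φ - π / 2) := by
    have : (H0 g - H0 h) = fun _ => H0 g 0 - H0 h 0 := by
      funext θ
      exact H θ 0
    rw [this]
    exact hasDerivAt_const _ _
  have e := d1.unique d2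
  rw [show φ - π / 2 + 3 * π / 2 = φ + π by ring, show φ - π / 2 + π / 2 = φ by ring] at e
  linarith

theorem rel2 (H : ∀ θ θ', qs g θ - qs h θ = qs g θ' - qs h θ') (φ φ' : ℝ) :
    (g φ ^ 2 + g (φ + π) ^ 2) - (h φ ^ 2 + h (φ + π) ^ 2) =
      (g φ' ^ 2 + g (φ' + π) ^ 2) - (h φ' ^ 2 + h (φ' + π) ^ 2) := by
  have e := H (φ + π / 2) (φ' + π / 2)
  unfold qs at e
  simp only [add_sub_cancel_right] at e
  rw [show φ + π / 2 + π / 2 = φ + π by ring, show φ' + π / 2 + π / 2 = φ' + π by ring] at e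
  linarith

end

end Pool.Agent.H843R3.Str
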