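import Pool.Agent.H843R3.Str.Rel

set_option autoImplicit false

/-!
# The odd part of the support function is that of a point
-/

open MeasureTheory Set Real Metric Filter
open scoped Pointwise ENNReal Topology

namespace Pool.Agent.H843R3.Str

/-- even part -/
noncomputable def ev (h : ℝ → ℝ) (φ : ℝ) : ℝ := (h φ + h (φ + π)) / 2

/-- odd part -/
noncomputable def od (h : ℝ → ℝ) (φ : ℝ) : ℝ := (h φ - h (φ + π)) / 2

theorem ev_add_od (h : ℝ → ℝ) (φ : ℝ) : ev h φ + od h φ = h φ := by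
  unfold ev od; ring

theorem ev_add_pi {h : ℝ → ℝ} (hp : ∀ φ, h (φ + 2 * π) = h φ) (φ : ℝ) :
    ev h (φ + π) = ev h φ := by
  unfold ev
  rw [show φ + π + π = φ + 2 * π by ring, hp]
  ring

theorem od_add_pi {h : ℝ → ℝ} (hp : ∀ φ, h (φ + 2 * π) = h φ) (φ : ℝ) :
    od h (φ + π) = -od h φ := by
  unfold od
  rw [show φ + π + π = φ + 2 * π by ring, hp]
  ring

/-- The hypothesis on `h`: every level set of the string length functional is transitive. -/
def Hyp (h : ℝ → ℝ) : Prop :=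
  ∀ ℓ : ℝ, ∫ φ in (0:ℝ)..(2 * π), h φ < ℓ → ∃ g : ℝ → ℝ,
    (∀ φ, g (φ + 2 * π) = g φ) ∧
    (∃ M : ℝ, (∀ φ ψ, |g φ - g ψ| ≤ M * |φ - ψ|) ∧ ∀ φ, g φ ≤ M) ∧
    (∀ φ, h φ ≤ g φ) ∧
    (∀ z φ, Lam h z ≤ ℓ → dt z φ ≤ g φ) ∧
    (∀ φ, ∃ z, Lam h z ≤ ℓ ∧ dt z φ = g φ) ∧
    (∀ ℓ2, ∫ φ in (0:ℝ)..(2 * π), g φ < ℓ2 → ∃ ℓ3, ∀ z, Lam g z = ℓ2 ↔ Lam h z = ℓ3)

variable {h : ℝ → ℝ} {M : ℝ}

theorem hyp_use (H : Hyp h) (hp : ∀ φ, h (φ + 2 * π) = h φ) (hpos : ∀ φ, 0 ≤ h φ)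
    (hM : 1 ≤ M) (hlip : ∀ φ ψ, |h φ - h ψ| ≤ M * |φ - ψ|) (hle : ∀ φ, h φ ≤ M)
    {ℓ : ℝ} (hℓ : ∫ φ in (0:ℝ)..(2 * π), h φ < ℓ) : ∃ g : ℝ → ℝ,
      (∀ φ, g (φ + 2 * π) = g φ) ∧ (∀ φ, h φ ≤ g φ) ∧
      (∀ z φ, Lam h z ≤ ℓ → dt z φ ≤ g φ) ∧ (∀ φ, ∃ z, Lam h z ≤ ℓ ∧ dt z φ = g φ) ∧
      (∀ φ, od g φ = od h φ) ∧
      (∀ φ φ', ev g φ ^ 2 - ev h φ ^ 2 = ev g φ' ^ 2 - ev h φ' ^ 2) := by
  obtain ⟨g, gp, ⟨M', glip, gle⟩, ghle, g1, g2, g3⟩ := H ℓ hℓ
  have gpos : ∀ φ, 0 ≤ g φ := fun φ => (hpos φ).trans (ghle φ)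
  set M2 := max M M' with hM2
  have c1 := rel_core (M := M2) hp hpos gp gpos (hM.trans (le_max_left _ _))
    (fun φ ψ => (hlip φ ψ).trans (mul_le_mul_of_nonneg_right (le_max_left _ _) (abs_nonneg _)))
    (fun φ => (hle φ).trans (le_max_left _ _))
    (fun φ ψ => (glip φ ψ).trans (mul_le_mul_of_nonneg_right (le_max_right _ _) (abs_nonneg _)))
    (fun φ => (gle φ).trans (le_max_right _ _)) g3
  have hc := continuous_of_lip hlip
  have gc := continuous_of_lip glip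
  have r1 := rel1 hc gc fun θ θ' => (c1 θ θ').1
  have r2 := rel2 fun θ θ' => (c1 θ θ').2
  have hod : ∀ φ, od g φ = od h φ := by
    intro φ
    have := r1 φ
    unfold od
    linarith
  refine ⟨g, gp, ghle, g1, g2, hod, ?_⟩
  intro φ φ'
  have e := r2 φ φ'
  have o1 := hod φ
  have o2 := hod φ'
  have f1 : ∀ f : ℝ → ℝ, ∀ x, f x ^ 2 + f (x + π) ^ 2 = 2 * ev f x ^ 2 + 2 * od f x ^ 2 := by
    intro f x
    unfold ev od
    ring
  rw [f1 g φ, f1 h φ, f1 g φ', f1 h φ', o1, o2] at e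
  linarith

theorem od_const (H : Hyp h) (hp : ∀ φ, h (φ + 2 * π) = h φ) (hpos : ∀ φ, 0 ≤ h φ)
    (hM : 1 ≤ M) (hlip : ∀ φ ψ, |h φ - h ψ| ≤ M * |φ - ψ|) (hle : ∀ φ, h φ ≤ M)
    (φ φ' : ℝ) : od h φ + H0 h φ / 2 = od h φ' + H0 h φ' / 2 := by
  have hc := continuous_of_lip hlip
  set C := 2 * (π ^ 2 * M ^ 3 + π ^ 4 * M ^ 4) with hC
  have hC0 : 0 ≤ C := by positivity
  have hx : 2 * (od h φ + H0 h φ / 2) - 2 * (od h φ' + H0 h φ' / 2) = 0 := by
    apply eq_zero_of_le_div (K := 2 * (M ^ 2 + C) + M ^ 2) (n0 := 2 * π * M)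
    intro n hn
    have hn1 : 1 ≤ n := by nlinarith [pi_gt_three]
    have hn0 : 0 < n := by linarith
    set ℓ := (∫ φ in (0:ℝ)..(2 * π), h φ) + 2 * π * n with hℓ
    have hlt : ∫ φ in (0:ℝ)..(2 * π), h φ < ℓ := by
      have : 0 < 2 * π * n := by positivity
      linarith
    obtain ⟨g, gp, ghle, g1, g2, hod, hev⟩ := hyp_use H hp hpos hM hlip hle hlt
    have e : (ℓ - ∫ φ in (0:ℝ)..(2 * π), h φ) / (2 * π) = n := by
      rw [hℓ, add_sub_cancel_left]
      field_simp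
    -- two sided estimate
    have est : ∀ φ, n ≤ g φ ∧ |2 * g φ - (ℓ - H0 h φ)| ≤ (M ^ 2 + C) / n := by
      intro φ
      obtain ⟨p, _, p2, _, p4⟩ := exists_level hc hp hpos φ hlt.le
      rw [e] at p2
      have hp0 : 0 < p := by linarith
      have hp1 : 1 ≤ p := by linarith
      have b1 : p ≤ g φ := by
        have := g1 (p • nn φ) φ p4.le
        rw [dt_smul_nn, sub_self, cos_zero, mul_one] at this
        exact this
      refine ⟨p2.trans b1, ?_⟩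
      obtain ⟨z, z1, z2⟩ := g2 φ
      have b2 := Lam_ge_two hc hp z φ
      rw [z2] at b2
      have b3 := abs_le.mp (Lam_asym hp hpos hM hlip hle (hn.trans p2) φ)
      rw [p4] at b3
      have sq : ∀ φ, h φ ^ 2 ≤ M ^ 2 := fun φ => pow_le_pow_left₀ (hpos φ) (hle φ) 2
      have q1 : (h (φ + π / 2) ^ 2 + h (φ - π / 2) ^ 2) / (2 * p) ≤ M ^ 2 / n := by
        rw [div_le_div_iff₀ (by positivity) hn0]
        have s1 := sq (φ + π / 2)
        have s2 := sq (φ - π / 2)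
        have s3 : (h (φ + π / 2) ^ 2 + h (φ - π / 2) ^ 2) * n ≤ (M ^ 2 + M ^ 2) * n := by gcongr
        have s4 : M ^ 2 * n ≤ M ^ 2 * p := by gcongr
        linarith
      have q2 : C / p ^ 2 ≤ C / n := by
        apply div_le_div_of_nonneg_left hC0 hn0
        nlinarith
      have q3 : 0 ≤ (M ^ 2 + C) / n := by positivity
      rw [abs_le]
      rw [add_div] at q3 ⊢
      constructor <;> linarith [b3.1, b3.2]
    have a1 := est φ
    have a2 := est φ'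
    have hevn : ∀ φ, n ≤ ev g φ := by
      intro φ
      have b1 := (est φ).1
      have b2 := (est (φ + π)).1
      unfold ev
      linarith
    have hevh : ∀ φ, 0 ≤ ev h φ ∧ ev h φ ≤ M := by
      intro φ
      unfold ev
      constructor <;> linarith [hpos φ, hpos (φ + π), hle φ, hle (φ + π)]
    have a3 : |ev g φ - ev g φ'| ≤ M ^ 2 / (2 * n) := by
      rw [le_div_iff₀ (by positivity)]
      have c1 := hev φ φ'
      have c2 : (ev g φ - ev g φ') * (ev g φ + ev g φ') = ev h φ ^ 2 - ev h φ' ^ 2 := by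
        linarith
      have c3 : |ev h φ ^ 2 - ev h φ' ^ 2| ≤ M ^ 2 := by
        have := pow_le_pow_left₀ (hevh φ).1 (hevh φ).2 2
        have := pow_le_pow_left₀ (hevh φ').1 (hevh φ').2 2
        have := sq_nonneg (ev h φ)
        have := sq_nonneg (ev h φ')
        rw [abs_le]
        constructor <;> linarith
      rw [← c2, abs_mul] at c3
      have c4 : 2 * n ≤ |ev g φ + ev g φ'| := by
        have := hevn φ
        have := hevn φ'
        rw [abs_of_nonneg (by linarith)]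
        linarith
      calc |ev g φ - ev g φ'| * (2 * n) ≤ |ev g φ - ev g φ'| * |ev g φ + ev g φ'| := by gcongr
        _ ≤ M ^ 2 := c3
    have a4 := abs_le.mp a3
    have a5 := abs_le.mp a1.2
    have a6 := abs_le.mp a2.2
    have e1 := ev_add_od g φ
    have e2 := ev_add_od g φ'
    rw [hod φ] at e1
    rw [hod φ'] at e2
    have e3 : (2 * (M ^ 2 + C) + M ^ 2) / n = 2 * ((M ^ 2 + C) / n) + 2 * (M ^ 2 / (2 * n)) := by
      field_simp
    rw [e3, abs_le]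
    constructor <;> linarith [a4.1, a4.2, a5.1, a5.2, a6.1, a6.2]
  linarith

theorem trig_of_quarter {u : ℝ → ℝ} (h1 : ∀ φ, u (φ + π) = -u φ)
    (h2 : ∀ φ, HasDerivAt u (u (φ + π / 2)) φ) (φ : ℝ) :
    u φ = u 0 * cos φ + u (π / 2) * sin φ := by
  set w : ℝ → ℝ := fun φ => u φ - (u 0 * cos φ + u (π / 2) * sin φ) with hw
  have w1 : ∀ φ, w (φ + π) = -w φ := by
    intro φ
    simp only [hw]
    rw [h1, cos_add_pi, sin_add_pi]
    ring
  have w2 : ∀ φ, HasDerivAt w (w (φ + π / 2)) φ := by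
    intro φ
    have a := (h2 φ).sub (((hasDerivAt_cos φ).const_mul (u 0)).add
      ((hasDerivAt_sin φ).const_mul (u (π / 2))))
    have b : w (φ + π / 2) = u (φ + π / 2) - (u 0 * -sin φ + u (π / 2) * cos φ) := by
      simp only [hw]
      rw [cos_add_pi_div_two, sin_add_pi_div_two]
    rw [b]
    exact a
  have w3 : ∀ φ, HasDerivAt (fun φ => w φ ^ 2 + w (φ + π / 2) ^ 2) 0 φ := by
    intro φ
    have a := w2 φ
    have b : HasDerivAt (fun φ : ℝ => w (φ + π / 2)) (w (φ + π / 2 + π / 2)) φ := by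
      have c := (w2 (φ + π / 2)).comp φ ((hasDerivAt_id φ).add_const (π / 2))
      rw [mul_one] at c
      exact c
    have d := (a.pow 2).add (b.pow 2)
    have e : (0:ℝ) = (2:ℕ) * w φ ^ (2 - 1) * w (φ + π / 2) +
        (2:ℕ) * w (φ + π / 2) ^ (2 - 1) * w (φ + π / 2 + π / 2) := by
      rw [show φ + π / 2 + π / 2 = φ + π by ring, w1]
      norm_num
      ring
    rw [e]
    exact d
  have w4 : ∀ φ, w φ ^ 2 + w (φ + π / 2) ^ 2 = w 0 ^ 2 + w (0 + π / 2) ^ 2 := by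
    intro φ
    exact is_const_of_deriv_eq_zero (fun x => (w3 x).differentiableAt) (fun x => (w3 x).deriv) φ 0
  have w5 : w 0 = 0 := by simp [hw]
  have w6 : w (0 + π / 2) = 0 := by simp [hw]
  have w7 := w4 φ
  rw [w5, w6] at w7
  have w8 : w φ = 0 := by nlinarith [sq_nonneg (w φ), sq_nonneg (w (φ + π / 2))]
  simp only [hw] at w8
  linarith

/-- The odd part of `h` is the support function of a point. -/
theorem od_trig (H : Hyp h) (hp : ∀ φ, h (φ + 2 * π) = h φ) (hpos : ∀ φ, 0 ≤ h φ)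
    (hM : 1 ≤ M) (hlip : ∀ φ ψ, |h φ - h ψ| ≤ M * |φ - ψ|) (hle : ∀ φ, h φ ≤ M) :
    ∃ v : E2, ∀ φ, od h φ = dt v φ := by
  have hc := continuous_of_lip hlip
  have e1 : od h = fun φ => (od h 0 + H0 h 0 / 2) - H0 h φ / 2 := by
    funext φ
    have := od_const H hp hpos hM hlip hle φ 0
    linarith
  have e2 : ∀ φ, HasDerivAt (od h) (od h (φ + π / 2)) φ := by
    intro φ
    have a : HasDerivAt (fun φ => (od h 0 + H0 h 0 / 2) - H0 h φ / 2)
        (-((h (φ + 3 * π / 2) - h (φ + π / 2)) / 2)) φ := by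
      have := ((hasDerivAt_H0 hc φ).div_const 2).const_sub (od h 0 + H0 h 0 / 2)
      exact this
    rw [← e1] at a
    have b : od h (φ + π / 2) = -((h (φ + 3 * π / 2) - h (φ + π / 2)) / 2) := by
      unfold od
      rw [show φ + π / 2 + π = φ + 3 * π / 2 by ring]
      ring
    rw [b]
    exact a
  have e3 := trig_of_quarter (od_add_pi hp) e2
  refine ⟨!₂[od h 0, od h (π / 2)], fun φ => ?_⟩
  rw [e3 φ]
  simp [dt]

end Pool.Agent.H843R3.Str
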